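import Pool.Agent.V8H74.TP.Family

/-!
# Consequences
-/

set_option autoImplicit false

namespace Pool.Agent.V8H74.TP

open Finset Module Pool.Agent.TH813.Rough Pool.Agent.TH681.QC Pool.Agent.R350
open Pool.Agent.Results.MP_bbc1fa_nt.GenericRow (IsGenericRow)

/-- integers all of which have many prime divisors `≥ z` -/
theorem power (k m : ℕ) : ∃ R C : ℕ, ∃ δ : ℝ, 0 < δ ∧ ∀ x z : ℕ, 16 ≤ x → 2 ≤ z →
    ∀ V : Submodule ℚ ℝ, Module.Finite ℚ V → finrank ℚ V ≤ m → ∀ B : Finset (Fin k → ℕ),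
    B ⊆ Fintype.piFinset (fun _ : Fin k => Icc 1 x) →
    (∀ a ∈ B, ∀ i, R ≤ om z (a i)) →
    (∀ a ∈ B, ¬ IsGenericRow V (fun i => Real.log (a i))) →
    (B.card : ℝ) ≤ C * Real.log x ^ C * (z : ℝ) ^ (-δ) * (x : ℝ) ^ k := by
  obtain ⟨R, hR⟩ := few_S k m
  refine ⟨R, 2 ^ k * (3 ^ R * 4) + R, 1 / (2 : ℝ) ^ R, by positivity,
    fun x z hx hz V hVf hVm B hB hom hbad => ?_⟩
  set N : ℕ := 2 ^ k * (3 ^ R * 4) + R with hN
  set t := Nat.log 2 z with ht
  have h1 : 2 ^ t ≤ z := Nat.pow_log_le_self 2 (by omega)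
  have h2 : z < 2 ^ (t + 1) := Nat.lt_pow_succ_log_self (by norm_num) z
  have h3 := hR x t V hVf hVm B hB (fun a ha i => (hom a ha i).trans (by
    unfold om
    exact Finset.card_le_card (Finset.monotone_filter_right _ (fun p _ hp => h1.trans hp)))) hbad
  refine h3.trans ?_
  have hlx := log_ge hx
  have hL := L_up hx
  have hz0 : (0 : ℝ) < z := by exact_mod_cast (by omega : 0 < z)
  have hδ : (0 : ℝ) < 1 / (2 : ℝ) ^ R := by positivity
  have hδ1 : 1 / (2 : ℝ) ^ R ≤ 1 := by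
    rw [div_le_one (by positivity)]
    exact one_le_pow₀ (by norm_num)
  have h4 : (2 : ℝ) ^ (-(t : ℝ) / (2 : ℝ) ^ R) ≤ 2 * (z : ℝ) ^ (-(1 / (2 : ℝ) ^ R)) := by
    have h5 : (2 : ℝ) ^ (-(t : ℝ) / (2 : ℝ) ^ R) = ((2 : ℝ) ^ t) ^ (-(1 / (2 : ℝ) ^ R)) := by
      rw [← Real.rpow_natCast 2 t, ← Real.rpow_mul (by norm_num)]
      congr 1
      ring
    have h6 : (z : ℝ) / 2 ≤ (2 : ℝ) ^ t := by
      have : (z : ℝ) ≤ (2 : ℝ) ^ (t + 1) := by exact_mod_cast h2.le
      rw [pow_succ] at this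
      linarith
    rw [h5]
    calc ((2 : ℝ) ^ t) ^ (-(1 / (2 : ℝ) ^ R)) ≤ ((z : ℝ) / 2) ^ (-(1 / (2 : ℝ) ^ R)) :=
          Real.rpow_le_rpow_of_nonpos (by positivity) h6 (by linarith)
      _ = (2 : ℝ) ^ (1 / (2 : ℝ) ^ R) * (z : ℝ) ^ (-(1 / (2 : ℝ) ^ R)) := by
          rw [Real.div_rpow hz0.le (by norm_num), Real.rpow_neg (by norm_num : (0 : ℝ) ≤ 2),
            div_inv_eq_mul, mul_comm]
      _ ≤ 2 * (z : ℝ) ^ (-(1 / (2 : ℝ) ^ R)) := by
          have : (2 : ℝ) ^ (1 / (2 : ℝ) ^ R) ≤ 2 := by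
            calc (2 : ℝ) ^ (1 / (2 : ℝ) ^ R) ≤ (2 : ℝ) ^ (1 : ℝ) :=
                  Real.rpow_le_rpow_of_exponent_le (by norm_num) hδ1
              _ = 2 := Real.rpow_one 2
          gcongr
  have hzp : 0 < (z : ℝ) ^ (-(1 / (2 : ℝ) ^ R)) := Real.rpow_pos_of_pos hz0 _
  have h7 : Real.log x ^ R ≤ Real.log x ^ N :=
    pow_le_pow_right₀ (by linarith) (Nat.le_add_left _ _)
  have h8 : ((2 ^ k * (3 ^ R * 4) : ℕ) : ℝ) ≤ N := by exact_mod_cast Nat.le_add_right _ _
  unfold ee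
  calc 2 ^ k * (((Nat.log 2 x + 1 : ℕ) : ℝ) ^ R * (2 * (2 : ℝ) ^ (-(t : ℝ) / (2 : ℝ) ^ R))) *
        (x : ℝ) ^ k
      ≤ 2 ^ k * ((3 * Real.log x) ^ R * (2 * (2 * (z : ℝ) ^ (-(1 / (2 : ℝ) ^ R))))) *
        (x : ℝ) ^ k := by gcongr
    _ = ((2 ^ k * (3 ^ R * 4) : ℕ) : ℝ) * Real.log x ^ R * (z : ℝ) ^ (-(1 / (2 : ℝ) ^ R)) *
        (x : ℝ) ^ k := by
        rw [mul_pow]
        push_cast
        ring
    _ ≤ (N : ℝ) * Real.log x ^ N * (z : ℝ) ^ (-(1 / (2 : ℝ) ^ R)) * (x : ℝ) ^ k := by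
        gcongr

theorem not_generic_of {a b : ℕ} (hb : 2 ≤ b) {t : ℝ} (ht : Irrational t)
    (hat : IsAlgebraic ℚ ((a : ℝ) ^ t)) (hbt : IsAlgebraic ℚ ((b : ℝ) ^ t)) (ha : 1 ≤ a) :
    ¬ IsGenericRow (Submodule.span ℚ {Real.log b}) (fun _ : Fin 1 => Real.log a) := by
  intro h
  have ha0 : (0 : ℝ) < a := by exact_mod_cast ha
  have hb0 : (0 : ℝ) < b := by exact_mod_cast (by omega : 0 < b)
  have hlb : Real.log b ≠ 0 := (Real.log_pos (by exact_mod_cast hb)).ne'
  -- independence of the two logarithms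
  have hrange : Set.range (fun _ : Fin 1 => Real.log a) = {Real.log a} := by
    ext y
    simp
  have hnot : Real.log a ∉ (Submodule.span ℚ {Real.log b} : Submodule ℚ ℝ) := by
    intro hmem
    have h1 := h.1
    rw [hrange] at h1
    have h2 : (Submodule.span ℚ {Real.log b} : Submodule ℚ ℝ) ⊔ Submodule.span ℚ {Real.log a} =
        Submodule.span ℚ {Real.log b} :=
      sup_eq_left.2 ((Submodule.span_singleton_le_iff_mem _ _).2 hmem)
    rw [h2] at h1
    omega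
  have hla : Real.log a ≠ 0 := fun h0 => hnot (by rw [h0]; exact Submodule.zero_mem _)
  set M : Matrix (Fin 2) (Fin 2) ℝ := !![Real.log a, Real.log b; t * Real.log a, t * Real.log b]
    with hM
  refine h.2 M ?_ ?_ ⟨0, ?_⟩ ?_ ?_ ?_
  · intro i j
    have e1 : Real.exp (Real.log a) = ((a : ℕ) : ℝ) := Real.exp_log ha0
    have e2 : Real.exp (Real.log b) = ((b : ℕ) : ℝ) := Real.exp_log hb0
    have e3 : Real.exp (t * Real.log a) = (a : ℝ) ^ t := by
      rw [Real.rpow_def_of_pos ha0, mul_comm]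
    have e4 : Real.exp (t * Real.log b) = (b : ℝ) ^ t := by
      rw [Real.rpow_def_of_pos hb0, mul_comm]
    fin_cases i <;> fin_cases j
    · change IsAlgebraic ℚ (Real.exp (Real.log a))
      rw [e1]; exact isAlgebraic_natCast a
    · change IsAlgebraic ℚ (Real.exp (Real.log b))
      rw [e2]; exact isAlgebraic_natCast b
    · change IsAlgebraic ℚ (Real.exp (t * Real.log a))
      rw [e3]; exact hat
    · change IsAlgebraic ℚ (Real.exp (t * Real.log b))
      rw [e4]; exact hbt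
  · intro j
    rw [hrange]
    fin_cases j
    · exact Submodule.mem_sup_right (Submodule.mem_span_singleton_self _)
    · exact Submodule.mem_sup_left (Submodule.mem_span_singleton_self _)
  · exact hnot
  · rw [Fintype.linearIndependent_iff]
    intro g hg
    rw [Fin.sum_univ_two] at hg
    have h1 := congrFun hg 0
    have h1' : (g 0 : ℝ) * Real.log a + g 1 * (t * Real.log a) = 0 := by
      simpa [hM, Rat.smul_def] using h1
    have h2 : (g 0 : ℝ) + g 1 * t = 0 := by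
      have : Real.log a * ((g 0 : ℝ) + g 1 * t) = 0 := by linear_combination h1'
      exact (mul_eq_zero.1 this).resolve_left hla
    have h3 : g 1 = 0 := by
      by_contra hne
      have hne' : (g 1 : ℝ) ≠ 0 := by exact_mod_cast hne
      apply ht
      refine ⟨-(g 0 / g 1), ?_⟩
      push_cast
      field_simp
      linarith
    intro i
    fin_cases i
    · rw [h3] at h2
      simp only [Rat.cast_zero, zero_mul, add_zero] at h2
      exact_mod_cast h2
    · exact h3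
  · rw [Fintype.linearIndependent_iff]
    intro g hg
    rw [Fin.sum_univ_two] at hg
    have h1 := congrFun hg 0
    have h1' : (g 0 : ℝ) * Real.log a + g 1 * Real.log b = 0 := by
      simpa [hM, Rat.smul_def] using h1
    have h3 : g 0 = 0 := by
      by_contra hne
      have hne' : (g 0 : ℝ) ≠ 0 := by exact_mod_cast hne
      apply hnot
      rw [Submodule.mem_span_singleton]
      refine ⟨-(g 1 / g 0), ?_⟩
      rw [Rat.smul_def]
      push_cast
      field_simp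
      linarith
    intro i
    fin_cases i
    · exact h3
    · rw [h3] at h1'
      simp only [Rat.cast_zero, zero_mul, zero_add] at h1'
      have := (mul_eq_zero.1 h1').resolve_right hlb
      exact_mod_cast this
  · rw [hM, Matrix.det_fin_two_of]
    ring

theorem choose_u (C : ℕ) (ε : ℝ) (hε : 0 < ε) :
    ∃ u : ℝ, 1 ≤ u ∧ C * (1 + u) ^ C * (2 * Real.exp (-u)) ≤ ε := by
  have h1 := (Real.tendsto_pow_mul_exp_neg_atTop_nhds_zero C).comp
    (Filter.tendsto_atTop_add_const_left Filter.atTop (1 : ℝ) Filter.tendsto_id)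
  have h2 := h1.const_mul ((C : ℝ) * 2 * Real.exp 1)
  rw [mul_zero] at h2
  obtain ⟨u, hu, hu1⟩ := ((h2.eventually (gt_mem_nhds hε)).and (Filter.eventually_ge_atTop 1)).exists
  refine ⟨u, hu1, le_of_eq_of_le ?_ hu.le⟩
  simp only [Function.comp_apply, id]
  have h3 : Real.exp (-(1 + u)) = Real.exp (-u) / Real.exp 1 := by
    rw [← Real.exp_sub]
    congr 1
    ring
  rw [h3]
  field_simp

open Classical in
/-- **For almost all `a`, all small `b`.** -/
theorem clean (ε : ℝ) (hε : 0 < ε) : ∃ δ : ℝ, 0 < δ ∧ ∃ x₀ : ℕ, ∀ x : ℕ, x₀ ≤ x →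
    (((Icc 1 x).filter (fun a : ℕ => ∃ b : ℕ, 2 ≤ b ∧ (b : ℝ) ≤ (x : ℝ) ^ δ ∧
      ∃ t : ℝ, Irrational t ∧ IsAlgebraic ℚ ((a : ℝ) ^ t) ∧ IsAlgebraic ℚ ((b : ℝ) ^ t))).card : ℝ) ≤
      ε * x := by
  obtain ⟨C, hC⟩ := family 1 1
  obtain ⟨u, hu1, hu⟩ := choose_u C ε hε
  set η : ℝ := 2 * Real.exp (-u) with hη
  have hη0 : 0 < η := by positivity
  have hη1 : η ≤ 1 := by
    have h1 : Real.exp (-u) ≤ Real.exp (-1) := Real.exp_le_exp.2 (by linarith)
    have h2 : Real.exp (-1 : ℝ) < 1 / 2 := by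
      rw [Real.exp_neg, inv_eq_one_div]
      apply one_div_lt_one_div_of_lt (by norm_num)
      linarith [Real.exp_one_gt_d9]
    linarith
  have hηu : Real.log (2 / η) = u := by
    rw [hη, div_mul_eq_div_div, div_self (by norm_num), Real.exp_neg, one_div, inv_inv, Real.log_exp]
  refine ⟨η, hη0, max 16 ⌈(4 / η + 2) ^ (4 / η)⌉₊, fun x hx => ?_⟩
  have hx16 : 16 ≤ x := (le_max_left _ _).trans hx
  have hx0 : (0 : ℝ) < x := by exact_mod_cast (by omega : 0 < x)
  have hx1 : (1 : ℝ) ≤ x := by exact_mod_cast (by omega : 1 ≤ x)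
  have hlx := log_ge hx16
  have hbig : 4 / η + 2 ≤ (x : ℝ) ^ (η / 4) := by
    have h1 : (4 / η + 2) ^ (4 / η) ≤ (x : ℝ) :=
      (Nat.le_ceil _).trans (by exact_mod_cast (le_max_right _ _).trans hx)
    calc 4 / η + 2 = ((4 / η + 2) ^ (4 / η)) ^ (η / 4) := by
          rw [← Real.rpow_mul (by positivity)]
          rw [show 4 / η * (η / 4) = 1 by field_simp, Real.rpow_one]
      _ ≤ (x : ℝ) ^ (η / 4) := Real.rpow_le_rpow (by positivity) h1 (by positivity)
  have h4η : 0 < 4 / η := by positivity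
  have hsq : (x : ℝ) ^ (η / 2) = (x : ℝ) ^ (η / 4) * (x : ℝ) ^ (η / 4) := by
    rw [← Real.rpow_add hx0]
    congr 1
    ring
  have hsq2 : (x : ℝ) ^ η = (x : ℝ) ^ (η / 2) * (x : ℝ) ^ (η / 2) := by
    rw [← Real.rpow_add hx0]
    congr 1
    ring
  have hlog : Real.log x ≤ (x : ℝ) ^ (η / 2) := by
    have h1 := Real.log_le_rpow_div hx0.le (show 0 < η / 4 by positivity)
    have h2 : (x : ℝ) ^ (η / 4) / (η / 4) = (4 / η) * (x : ℝ) ^ (η / 4) := by
      field_simp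
    rw [h2] at h1
    rw [hsq]
    refine h1.trans ?_
    have : 4 / η ≤ (x : ℝ) ^ (η / 4) := by linarith
    gcongr
  have h2le : 2 ≤ (x : ℝ) ^ (η / 2) := by
    rw [hsq]
    nlinarith
  set y := ⌊(x : ℝ) ^ η⌋₊ with hy
  have hyle : (y : ℝ) ≤ (x : ℝ) ^ η := Nat.floor_le (by positivity)
  have hyge : (x : ℝ) ^ (η / 2) ≤ y := by
    have h1 : (x : ℝ) ^ η < y + 1 := Nat.lt_floor_add_one _
    nlinarith
  have hyx : y ≤ x := by
    have h1 : (x : ℝ) ^ η ≤ (x : ℝ) ^ (1 : ℝ) := Real.rpow_le_rpow_of_exponent_le hx1 hη1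
    rw [Real.rpow_one] at h1
    exact_mod_cast hyle.trans h1
  have hylog : Real.log x ≤ y := hlog.trans hyge
  have hy0 : (0 : ℝ) < y := by linarith
  have hly1 : Real.log y ≤ η * Real.log x := by
    rw [← Real.log_rpow hx0]
    exact Real.log_le_log hy0 hyle
  have hly2 : η / 2 * Real.log x ≤ Real.log y := by
    rw [← Real.log_rpow hx0]
    exact Real.log_le_log (by positivity) hyge
  have hlx0 : 0 < Real.log x := by linarith
  have hly0 : 0 < Real.log y := lt_of_lt_of_le (by positivity) hly2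
  have hΛ : Real.log (Real.log x / Real.log y) ≤ u := by
    rw [← hηu]
    apply Real.log_le_log (by positivity)
    rw [div_le_div_iff₀ hly0 hη0]
    linarith
  have hΛ0 : 0 ≤ Real.log (Real.log x / Real.log y) := by
    apply Real.log_nonneg
    rw [le_div_iff₀ hly0, one_mul]
    exact Real.log_le_log hy0 (by exact_mod_cast hyx)
  have hratio : Real.log y / Real.log x ≤ η := by
    rw [div_le_iff₀ hlx0]
    exact hly1
  set W : Finset (Submodule ℚ ℝ) := (Icc 2 y).image (fun b : ℕ => Submodule.span ℚ {Real.log b})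
    with hW
  have hWc : W.card ≤ y ^ 1 := by
    refine Finset.card_image_le.trans ?_
    rw [Nat.card_Icc, pow_one]
    omega
  have key := hC x y hx16 hylog hyx W hWc (by
    intro V hV
    obtain ⟨b, hb, rfl⟩ := Finset.mem_image.1 hV
    exact ⟨inferInstance, (finrank_line (Finset.mem_Icc.1 hb).1).le⟩)
  set A := (Icc 1 x).filter (fun a : ℕ => ∃ b : ℕ, 2 ≤ b ∧ (b : ℝ) ≤ (x : ℝ) ^ η ∧
      ∃ t : ℝ, Irrational t ∧ IsAlgebraic ℚ ((a : ℝ) ^ t) ∧ IsAlgebraic ℚ ((b : ℝ) ^ t)) with hA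
  have hcard : A.card ≤ ((Fintype.piFinset (fun _ : Fin 1 => Icc 1 x)).filter (fun a =>
      ∃ V ∈ W, ¬ IsGenericRow V (fun i => Real.log (a i)))).card := by
    refine Finset.card_le_card_of_injOn (fun a => fun _ : Fin 1 => a) ?_ ?_
    · intro a ha
      have ha' := Finset.mem_filter.1 (Finset.mem_coe.1 ha)
      obtain ⟨b, hb2, hbx, t, ht, hat, hbt⟩ := ha'.2
      have hby : b ≤ y := Nat.le_floor hbx
      refine Finset.mem_coe.2 (Finset.mem_filter.2 ⟨?_, ?_⟩)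
      · rw [Fintype.mem_piFinset]
        exact fun _ => ha'.1
      · exact ⟨_, Finset.mem_image.2 ⟨b, Finset.mem_Icc.2 ⟨hb2, hby⟩, rfl⟩,
          not_generic_of hb2 ht hat hbt (Finset.mem_Icc.1 ha'.1).1⟩
    · intro a _ b _ hab
      exact congrFun hab 0
  calc (A.card : ℝ) ≤ _ := by exact_mod_cast hcard
    _ ≤ _ := key
    _ ≤ C * (1 + u) ^ C * η * (x : ℝ) ^ 1 := by gcongr
    _ ≤ ε * x := by
        rw [pow_one]
        gcongr

end Pool.Agent.V8H74.TP
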