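import Pool.Agent.TH681.QC.Rough
import Pool.Agent.Erdos456.Mertens

/-!
# Integers with at most `k` large prime factors, the sharp form
-/

set_option autoImplicit false

namespace Pool.Agent.V8H74.TP

open Finset Pool.Agent.TH813.Rough

theorem wt_sum' : ∃ C : ℝ, 0 ≤ C ∧ ∀ (w : ℝ), 0 < w → w ≤ 1 → ∀ z x : ℕ, 3 ≤ z → z ≤ x →
    ∑ m ∈ Icc 1 x, wt w z m / (m : ℝ) ≤
      Real.exp (Real.log (Real.log z) + C +
        w * (Real.log (Real.log x) - Real.log (Real.log z) + C)) := by
  obtain ⟨C, hC0, hC⟩ := sum_inv'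
  obtain ⟨D, hD⟩ := Pool.Agent.Erdos456.Mert.mertens_inv
  have hD0 : 0 ≤ D := (abs_nonneg _).trans (hD 3 le_rfl)
  refine ⟨C + D, by positivity, fun w hw hw1 z x hz hzx => (euler_le hw hw1 z x).trans ?_⟩
  rw [primesBelow_eq]
  have hp1 : ∀ N, ∀ p ∈ (Icc 1 N).filter Nat.Prime, (0 : ℝ) ≤ 1 / ((p : ℝ) - 1) := by
    intro N p hp
    rw [mem_filter] at hp
    have : (1 : ℝ) < p := by exact_mod_cast hp.2.one_lt
    apply one_div_nonneg.2
    linarith
  have hlow : Real.log (Real.log z) - D ≤ ∑ p ∈ (Icc 1 z).filter Nat.Prime, 1 / ((p : ℝ) - 1) := by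
    have h1 := (abs_le.1 (hD z hz)).1
    have h2 : ∑ p ∈ (Icc 1 z).filter Nat.Prime, (1 : ℝ) / p ≤
        ∑ p ∈ (Icc 1 z).filter Nat.Prime, 1 / ((p : ℝ) - 1) := by
      refine sum_le_sum fun p hp => ?_
      rw [mem_filter] at hp
      have : (1 : ℝ) < p := by exact_mod_cast hp.2.one_lt
      apply one_div_le_one_div_of_le <;> linarith
    linarith
  calc ∏ p ∈ (Icc 1 x).filter Nat.Prime, (1 + gp w z p * (1 / ((p : ℝ) - 1)))
      ≤ ∏ p ∈ (Icc 1 x).filter Nat.Prime, Real.exp (gp w z p * (1 / ((p : ℝ) - 1))) := by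
        refine prod_le_prod (fun p hp => ?_) (fun p hp => ?_)
        · have := mul_nonneg (gp_nonneg hw z p) (hp1 x p hp)
          linarith
        · rw [add_comm]
          exact Real.add_one_le_exp _
    _ = Real.exp (∑ p ∈ (Icc 1 x).filter Nat.Prime, gp w z p * (1 / ((p : ℝ) - 1))) :=
        (Real.exp_sum _ _).symm
    _ ≤ _ := by
        apply Real.exp_le_exp.2
        have h1 : ∀ p ∈ (Icc 1 x).filter Nat.Prime, gp w z p * (1 / ((p : ℝ) - 1)) ≤
            (1 - w) * (if p ≤ z then 1 / ((p : ℝ) - 1) else 0) + w * (1 / ((p : ℝ) - 1)) := by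
          intro p hp
          have h2 := hp1 x p hp
          have h3 : 0 ≤ (1 - w) * (1 / ((p : ℝ) - 1)) := mul_nonneg (by linarith) h2
          unfold gp
          split_ifs with h4 h5 h5
          · linarith
          · linarith
          · linarith
          · exact absurd (not_le.1 h4).le h5
        refine (sum_le_sum h1).trans ?_
        rw [sum_add_distrib, ← mul_sum, ← mul_sum]
        have h5 : ∑ p ∈ (Icc 1 x).filter Nat.Prime, (if p ≤ z then 1 / ((p : ℝ) - 1) else 0) ≤
            ∑ p ∈ (Icc 1 z).filter Nat.Prime, 1 / ((p : ℝ) - 1) := by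
          rw [← sum_filter]
          refine sum_le_sum_of_subset_of_nonneg ?_ ?_
          · intro p hp
            rw [mem_filter, mem_filter, mem_Icc] at hp
            rw [mem_filter, mem_Icc]
            exact ⟨⟨hp.1.1.1, hp.2⟩, hp.1.2⟩
          · intro p hp _
            exact hp1 z p hp
        have h6 := hC z (by omega)
        have h7 := hC x (by omega)
        have h8 : (1 - w) * ∑ p ∈ (Icc 1 x).filter Nat.Prime,
            (if p ≤ z then 1 / ((p : ℝ) - 1) else 0) ≤
            (1 - w) * ∑ p ∈ (Icc 1 z).filter Nat.Prime, 1 / ((p : ℝ) - 1) :=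
          mul_le_mul_of_nonneg_left h5 (by linarith)
        have h9 : w * (∑ p ∈ (Icc 1 x).filter Nat.Prime, 1 / ((p : ℝ) - 1) -
            ∑ p ∈ (Icc 1 z).filter Nat.Prime, 1 / ((p : ℝ) - 1)) ≤
            w * (Real.log (Real.log x) - Real.log (Real.log z) + (C + D)) := by
          apply mul_le_mul_of_nonneg_left _ hw.le
          linarith
        linarith

/-- few integers have at most `k` prime factors `≥ z` -/
theorem rough_count' (k : ℕ) : ∃ C : ℝ, 0 ≤ C ∧ ∀ x z : ℕ, 16 ≤ x → 3 ≤ z → z ≤ x →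
    (((Icc 1 x).filter (fun n => om z n ≤ k)).card : ℝ) ≤
      C * x * (1 + Real.log (Real.log x / Real.log z)) ^ k * Real.log z / Real.log x := by
  obtain ⟨C, hC0, hC⟩ := wt_sum'
  set c1 : ℝ := Real.log 4 + 4 with hc1
  have hc1' : 0 ≤ c1 := by
    have : 0 ≤ Real.log 4 := Real.log_nonneg (by norm_num)
    rw [hc1]; linarith
  refine ⟨2 / Real.log 2 + 2 * c1 * Real.exp (2 * C + 1), by positivity, fun x z hx hz hzx => ?_⟩
  have hx0 : (0 : ℝ) < x := by exact_mod_cast (by omega : 0 < x)
  have hx16 : (16 : ℝ) ≤ x := by exact_mod_cast hx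
  have hlz : Real.log 2 ≤ Real.log z := Real.log_le_log (by norm_num) (by exact_mod_cast (by omega : 2 ≤ z))
  have hl2 : 0 < Real.log 2 := Real.log_pos (by norm_num)
  have hlz0 : 0 < Real.log z := by linarith
  have hlzx : Real.log z ≤ Real.log x := Real.log_le_log (by exact_mod_cast (by omega : 0 < z))
    (by exact_mod_cast hzx)
  have hlx0 : 0 < Real.log x := by linarith
  set Λ : ℝ := Real.log (Real.log x / Real.log z) with hΛ
  have hΛ' : Λ = Real.log (Real.log x) - Real.log (Real.log z) := Real.log_div hlx0.ne' hlz0.ne'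
  have hΛ0 : 0 ≤ Λ := Real.log_nonneg (by rw [le_div_iff₀ hlz0, one_mul]; exact hlzx)
  have hll0 : 0 < 1 + Λ := by linarith
  set w : ℝ := 1 / (1 + Λ) with hw
  have hw0 : 0 < w := by positivity
  have hw1 : w ≤ 1 := by
    rw [hw, div_le_one hll0]; linarith
  have h1 := hC w hw0 hw1 z x hz hzx
  have h2 : Real.exp (Real.log (Real.log z) + C +
      w * (Real.log (Real.log x) - Real.log (Real.log z) + C)) ≤
      Real.exp (2 * C + 1) * Real.log z := by
    have h3 : Real.log (Real.log z) + C + w * (Real.log (Real.log x) - Real.log (Real.log z) + C) ≤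
        (2 * C + 1) + Real.log (Real.log z) := by
      rw [← hΛ']
      have h4 : w * (1 + Λ) = 1 := by
        rw [hw]; field_simp
      have h5 : w * C ≤ 1 * C := mul_le_mul_of_nonneg_right hw1 hC0
      nlinarith
    refine (Real.exp_le_exp.2 h3).trans ?_
    rw [Real.exp_add, Real.exp_log hlz0]
  have h3 := hall hw0 hw1 z x
  have hIcc : Icc 1 x = Ioc 0 x := rfl
  rw [hIcc] at h1
  -- the two parts
  set S := (Icc 1 x).filter (fun n => om z n ≤ k) with hS
  have hsplit : (S.card : ℝ) ≤ ((Icc 1 x).filter (fun n => n * n ≤ x)).card +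
      (S.filter (fun n => x < n * n)).card := by
    have : S ⊆ ((Icc 1 x).filter (fun n => n * n ≤ x)) ∪ (S.filter (fun n => x < n * n)) := by
      intro n hn
      rw [mem_union, mem_filter, mem_filter]
      rcases Nat.lt_or_ge x (n * n) with h | h
      · exact Or.inr ⟨hn, h⟩
      · exact Or.inl ⟨(mem_filter.1 hn).1, h⟩
    exact_mod_cast (card_le_card this).trans (card_union_le _ _)
  have hA : (((Icc 1 x).filter (fun n => n * n ≤ x)).card : ℝ) ≤ Real.sqrt x := by
    have : ((Icc 1 x).filter (fun n => n * n ≤ x)) ⊆ Icc 1 (Nat.sqrt x) := by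
      intro n hn
      rw [mem_filter, mem_Icc] at hn
      rw [mem_Icc]
      exact ⟨hn.1.1, Nat.le_sqrt.2 hn.2⟩
    have h4 := card_le_card this
    rw [Nat.card_Icc, Nat.add_sub_cancel] at h4
    calc (((Icc 1 x).filter (fun n => n * n ≤ x)).card : ℝ) ≤ (Nat.sqrt x : ℝ) := by exact_mod_cast h4
      _ ≤ Real.sqrt x := Real.nat_sqrt_le_real_sqrt
  have hsq : Real.sqrt x ≤ 2 * x / Real.log x := by
    have hs0 : 0 < Real.sqrt x := Real.sqrt_pos.2 hx0
    rw [le_div_iff₀ hlx0]
    have h4 : Real.log x ≤ 2 * Real.sqrt x := by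
      have h5 := Real.log_le_sub_one_of_pos hs0
      rw [Real.log_sqrt hx0.le] at h5
      linarith
    calc Real.sqrt x * Real.log x ≤ Real.sqrt x * (2 * Real.sqrt x) :=
          mul_le_mul_of_nonneg_left h4 hs0.le
      _ = 2 * x := by rw [show Real.sqrt x * (2 * Real.sqrt x) = 2 * (Real.sqrt x * Real.sqrt x) by ring,
          Real.mul_self_sqrt hx0.le]
  have hB : ((S.filter (fun n => x < n * n)).card : ℝ) * (w ^ k * (Real.log x / 2)) ≤
      c1 * x * (Real.exp (2 * C + 1) * Real.log z) := by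
    calc ((S.filter (fun n => x < n * n)).card : ℝ) * (w ^ k * (Real.log x / 2))
        = ∑ n ∈ S.filter (fun n => x < n * n), w ^ k * (Real.log x / 2) := by
          rw [sum_const, nsmul_eq_mul]
      _ ≤ ∑ n ∈ S.filter (fun n => x < n * n), wt w z n * Real.log n := by
          refine sum_le_sum (fun n hn => ?_)
          rw [mem_filter, hS, mem_filter, mem_Icc] at hn
          obtain ⟨⟨⟨h4, h5⟩, h6⟩, h7⟩ := hn
          have h8 : w ^ k ≤ wt w z n := pow_le_pow_of_le_one hw0.le hw1 h6
          have hn0 : (0 : ℝ) < n := by exact_mod_cast h4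
          have h9 : Real.log x / 2 ≤ Real.log n := by
            have h10 : Real.log x ≤ Real.log ((n : ℝ) * n) :=
              Real.log_le_log hx0 (by exact_mod_cast h7.le)
            rw [Real.log_mul hn0.ne' hn0.ne'] at h10
            linarith
          exact mul_le_mul h8 h9 (by positivity) (wt_nonneg hw0 z n)
      _ ≤ ∑ n ∈ Ioc 0 x, wt w z n * Real.log n := by
          refine sum_le_sum_of_subset_of_nonneg ?_ ?_
          · intro n hn
            exact (mem_filter.1 (mem_filter.1 hn).1).1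
          · intro n _ _
            exact mul_nonneg (wt_nonneg hw0 z n) (Real.log_natCast_nonneg n)
      _ ≤ c1 * x * ∑ m ∈ Ioc 0 x, wt w z m / (m : ℝ) := h3
      _ ≤ c1 * x * (Real.exp (2 * C + 1) * Real.log z) :=
          mul_le_mul_of_nonneg_left (h1.trans h2) (by positivity)
  have hB' : ((S.filter (fun n => x < n * n)).card : ℝ) ≤
      (2 * c1 * Real.exp (2 * C + 1)) * x * (1 + Λ) ^ k * Real.log z / Real.log x := by
    rw [le_div_iff₀ hlx0]
    have h4 : w ^ k * (1 + Λ) ^ k = 1 := by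
      rw [← mul_pow, hw, one_div, inv_mul_cancel₀ hll0.ne', one_pow]
    calc ((S.filter (fun n => x < n * n)).card : ℝ) * Real.log x
        = ((S.filter (fun n => x < n * n)).card : ℝ) * Real.log x *
          (w ^ k * (1 + Λ) ^ k) := by rw [h4, mul_one]
      _ = 2 * (1 + Λ) ^ k *
          (((S.filter (fun n => x < n * n)).card : ℝ) * (w ^ k * (Real.log x / 2))) := by ring
      _ ≤ 2 * (1 + Λ) ^ k * (c1 * x * (Real.exp (2 * C + 1) * Real.log z)) :=
          mul_le_mul_of_nonneg_left hB (by positivity)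
      _ = _ := by ring
  have hA' : Real.sqrt x ≤ (2 / Real.log 2) * x * (1 + Λ) ^ k * Real.log z /
      Real.log x := by
    refine hsq.trans ?_
    rw [div_le_div_iff_of_pos_right hlx0]
    have h4 : 1 ≤ (1 + Λ) ^ k := one_le_pow₀ (by linarith)
    have h5 : 1 ≤ Real.log z / Real.log 2 := by rw [le_div_iff₀ hl2]; linarith
    calc 2 * (x : ℝ) = 2 * x * (1 * 1) := by ring
      _ ≤ 2 * x * ((1 + Λ) ^ k * (Real.log z / Real.log 2)) := by
          refine mul_le_mul_of_nonneg_left ?_ (by positivity)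
          exact mul_le_mul h4 h5 zero_le_one (by positivity)
      _ = _ := by ring
  calc (S.card : ℝ) ≤ _ := hsplit
    _ ≤ (2 / Real.log 2) * x * (1 + Λ) ^ k * Real.log z / Real.log x +
        (2 * c1 * Real.exp (2 * C + 1)) * x * (1 + Λ) ^ k * Real.log z /
          Real.log x := add_le_add (hA.trans hA') hB'
    _ = _ := by ring

end Pool.Agent.V8H74.TP
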