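import Pool.Agent.V8H74.TP.Rate
import Pool.Agent.V8H74.TP.Rough

/-!
# Tuples of integers which are generic over all the spaces of a large family
-/

set_option autoImplicit false

namespace Pool.Agent.V8H74.TP

open Finset Module Pool.Agent.TH813.Rough Pool.Agent.TH681.QC Pool.Agent.R350
open Pool.Agent.Results.MP_bbc1fa_nt.GenericRow (IsGenericRow)

/-- one coordinate in a small set -/
theorem count_one {k : ℕ} (x : ℕ) (U : Finset ℕ) (i : Fin k) (u : ℝ)
    (hU : (U.card : ℝ) ≤ u * x) :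
    (((Fintype.piFinset (fun _ : Fin k => Icc 1 x)).filter (fun a => a i ∈ U)).card : ℝ) ≤
      u * x ^ k := by
  classical
  have h1 : (Fintype.piFinset (fun _ : Fin k => Icc 1 x)).filter (fun a => a i ∈ U) ⊆
      Fintype.piFinset (fun l : Fin k => if l = i then U else Icc 1 x) := by
    intro a ha
    rw [Finset.mem_filter, Fintype.mem_piFinset] at ha
    rw [Fintype.mem_piFinset]
    intro l
    split_ifs with hl
    · rw [hl]; exact ha.2
    · exact ha.1 l
  have h2 := Finset.card_le_card h1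
  rw [Fintype.card_piFinset] at h2
  have h3 : ∏ l : Fin k, (if l = i then U else Icc 1 x).card =
      ∏ l : Fin k, (if l = i then U.card else x) := by
    refine Finset.prod_congr rfl fun l _ => ?_
    split_ifs
    · rfl
    · rw [Nat.card_Icc, Nat.add_sub_cancel]
  rw [h3] at h2
  have h4 : ((∏ l : Fin k, (if l = i then U.card else x) : ℕ) : ℝ) ≤ u * x ^ k := by
    push_cast
    have hx0 : (0 : ℝ) ≤ x := Nat.cast_nonneg x
    calc (∏ l : Fin k, (if l = i then (U.card : ℝ) else x))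
        ≤ ∏ l : Fin k, ((if l = i then u else 1) * x) := by
          refine Finset.prod_le_prod (fun l _ => ?_) (fun l _ => ?_)
          · split_ifs
            · exact Nat.cast_nonneg _
            · exact hx0
          · split_ifs
            · exact hU
            · rw [one_mul]
      _ = u * x ^ k := by
          rw [Finset.prod_mul_distrib, Finset.prod_const, Finset.card_univ, Fintype.card_fin,
            Finset.prod_ite_eq']
          simp
  exact (by exact_mod_cast h2 : (((Fintype.piFinset (fun _ : Fin k => Icc 1 x)).filter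
    (fun a => a i ∈ U)).card : ℝ) ≤ ((∏ l : Fin k,
      (if l = i then U.card else x) : ℕ) : ℝ)).trans h4

/-- the parameter -/
def ts (R m x y : ℕ) : ℕ :=
  2 ^ R * ((R + 2) * (Nat.log 2 (Nat.log 2 x + 1) + 1) + (m + 1) * (Nat.log 2 y + 1))

theorem y_facts {x y : ℕ} (hx : 16 ≤ x) (hy : Real.log x ≤ y) :
    3 ≤ y ∧ (1 : ℝ) ≤ Real.log y ∧ Real.log (Real.log x) ≤ Real.log y := by
  have hlx := log_ge hx
  have hll := loglog_ge hx
  have h1 : Real.log (Real.log x) ≤ Real.log y := Real.log_le_log (by linarith) hy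
  refine ⟨?_, hll.trans h1, h1⟩
  have : (2 : ℝ) < y := by linarith
  have : 2 < y := by exact_mod_cast this
  omega

theorem ee_ts {R m x y : ℕ} (hx : 16 ≤ x) (hy : Real.log x ≤ y) :
    (y : ℝ) ^ m * ee R x (ts R m x y) ≤ 2 / Real.log x := by
  have hlx := log_ge hx
  have hL := L_low hx
  obtain ⟨hy3, -, -⟩ := y_facts hx hy
  have hy0 : (1 : ℝ) ≤ y := by exact_mod_cast (by omega : 1 ≤ y)
  set L := Nat.log 2 x + 1 with hLd
  have hL0 : (0 : ℝ) < L := by linarith
  have h1 : (2 : ℝ) ^ (-((ts R m x y : ℕ) : ℝ) / (2 : ℝ) ^ R) =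
      (((2 : ℝ) ^ (Nat.log 2 L + 1)) ^ (R + 2))⁻¹ * (((2 : ℝ) ^ (Nat.log 2 y + 1)) ^ (m + 1))⁻¹ := by
    have h2 : (-((ts R m x y : ℕ) : ℝ) / (2 : ℝ) ^ R) =
        -(((Nat.log 2 L + 1) * (R + 2) : ℕ) : ℝ) + -(((Nat.log 2 y + 1) * (m + 1) : ℕ) : ℝ) := by
      unfold ts
      push_cast
      rw [← hLd]
      field_simp
      ring
    rw [h2, Real.rpow_add (by norm_num), Real.rpow_neg (by norm_num), Real.rpow_neg (by norm_num),
      Real.rpow_natCast, Real.rpow_natCast, pow_mul, pow_mul]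
  have h3 : (L : ℝ) ≤ (2 : ℝ) ^ (Nat.log 2 L + 1) := by
    exact_mod_cast (Nat.lt_pow_succ_log_self (by norm_num) L).le
  have h4 : (y : ℝ) ≤ (2 : ℝ) ^ (Nat.log 2 y + 1) := by
    exact_mod_cast (Nat.lt_pow_succ_log_self (by norm_num) y).le
  have hy00 : (0 : ℝ) < y := by linarith
  unfold ee
  rw [h1]
  calc (y : ℝ) ^ m * (((L : ℕ) : ℝ) ^ R * (2 * ((((2 : ℝ) ^ (Nat.log 2 L + 1)) ^ (R + 2))⁻¹ *
        (((2 : ℝ) ^ (Nat.log 2 y + 1)) ^ (m + 1))⁻¹)))
      ≤ (y : ℝ) ^ m * (((L : ℕ) : ℝ) ^ R * (2 * (((L : ℝ) ^ (R + 2))⁻¹ *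
        ((y : ℝ) ^ (m + 1))⁻¹))) := by gcongr
    _ = 2 / ((L : ℝ) ^ 2 * y) := by
        rw [pow_add, pow_succ (y : ℝ) m]
        field_simp
    _ ≤ 2 / Real.log x := by
        apply div_le_div_of_nonneg_left (by norm_num) (by linarith)
        nlinarith

theorem ts_le {R m x y : ℕ} (hx : 16 ≤ x) (hy : Real.log x ≤ y) :
    Real.log ((2 ^ ts R m x y : ℕ) : ℝ) ≤
      ((2 : ℝ) ^ R * ((R + 2) * 7 + (m + 1) * 3)) * Real.log y := by
  obtain ⟨hy3, hly, hlly⟩ := y_facts hx hy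
  have hll := loglog_ge hx
  have h1 := logL hx
  have hl2' : Real.log 2 ≤ 1 := by
    have := Real.log_two_lt_d9
    linarith
  have hl2'' : 1 / 2 ≤ Real.log 2 := by
    have := Real.log_two_gt_d9
    linarith
  have h8 : Real.log ((2 ^ ts R m x y : ℕ) : ℝ) = (ts R m x y : ℝ) * Real.log 2 := by
    rw [Nat.cast_pow, Real.log_pow]; norm_num
  have h9 : (ts R m x y : ℝ) * Real.log 2 ≤ ts R m x y := by
    calc (ts R m x y : ℝ) * Real.log 2 ≤ ts R m x y * 1 :=
          mul_le_mul_of_nonneg_left hl2' (Nat.cast_nonneg _)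
      _ = ts R m x y := mul_one _
  have h10 : ((Nat.log 2 y : ℕ) : ℝ) ≤ 2 * Real.log y := by
    have h3 : 2 ^ (Nat.log 2 y) ≤ y := Nat.pow_log_le_self 2 (by omega)
    have h4 : Real.log ((2 : ℝ) ^ (Nat.log 2 y)) ≤ Real.log y := by
      apply Real.log_le_log (by positivity)
      exact_mod_cast h3
    rw [Real.log_pow] at h4
    have h5 : ((Nat.log 2 y : ℕ) : ℝ) * (1 / 2) ≤ (Nat.log 2 y : ℕ) * Real.log 2 :=
      mul_le_mul_of_nonneg_left hl2'' (Nat.cast_nonneg _)
    linarith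
  rw [h8]
  refine h9.trans ?_
  unfold ts
  push_cast
  have h2 : ((Nat.log 2 (Nat.log 2 x + 1) : ℕ) : ℝ) + 1 ≤ 7 * Real.log y := by linarith
  have h3 : ((Nat.log 2 y : ℕ) : ℝ) + 1 ≤ 3 * Real.log y := by linarith
  calc (2 : ℝ) ^ R * ((R + 2) * (((Nat.log 2 (Nat.log 2 x + 1) : ℕ) : ℝ) + 1) +
        (m + 1) * (((Nat.log 2 y : ℕ) : ℝ) + 1))
      ≤ (2 : ℝ) ^ R * ((R + 2) * (7 * Real.log y) + (m + 1) * (3 * Real.log y)) := by gcongr
    _ = _ := by ring

theorem lt_ts {R m x y : ℕ} : y < 2 ^ ts R m x y := by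
  refine (Nat.lt_pow_succ_log_self (b := 2) (by norm_num) y).trans_le
    (Nat.pow_le_pow_right (by norm_num) ?_)
  unfold ts
  calc Nat.log 2 y + 1 = 1 * (1 * (Nat.log 2 y + 1)) := by ring
    _ ≤ 2 ^ R * ((m + 1) * (Nat.log 2 y + 1)) := by
        gcongr
        · exact Nat.one_le_two_pow
        · omega
    _ ≤ _ := by
        gcongr
        omega

theorem few_Us (R m : ℕ) : ∃ K : ℝ, 0 ≤ K ∧ ∀ x y : ℕ, 16 ≤ x → Real.log x ≤ y → y ≤ x →
    (((Icc 1 x).filter (fun n => om (2 ^ ts R m x y) n < R)).card : ℝ) ≤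
      (K * (1 + Real.log (Real.log x / Real.log y)) ^ R * (Real.log y / Real.log x)) * x := by
  rcases Nat.eq_zero_or_pos R with rfl | hR
  · refine ⟨0, le_rfl, fun x y hx hy hyx => ?_⟩
    simp
  · obtain ⟨k, rfl⟩ : ∃ k, R = k + 1 := ⟨R - 1, by omega⟩
    obtain ⟨C, hC0, hC⟩ := rough_count' k
    set K0 : ℝ := (2 : ℝ) ^ (k + 1) * (((k + 1 : ℕ) + 2) * 7 + (m + 1) * 3) with hK0
    have hK00 : 0 ≤ K0 := by positivity
    refine ⟨(C + 1) * K0, by positivity, fun x y hx hy hyx => ?_⟩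
    have hlx := log_ge hx
    have hll := loglog_ge hx
    have hlx0 : 0 < Real.log x := by linarith
    have hx0 : (0 : ℝ) < x := by exact_mod_cast (by omega : 0 < x)
    obtain ⟨hy3, hly, hlly⟩ := y_facts hx hy
    have hly0 : 0 < Real.log y := by linarith
    have hlyx : Real.log y ≤ Real.log x := Real.log_le_log (by exact_mod_cast (by omega : 0 < y))
      (by exact_mod_cast hyx)
    have hts := ts_le (R := k + 1) (m := m) hx hy
    rw [← hK0] at hts
    set t := ts (k + 1) m x y with ht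
    have hyt : y < 2 ^ t := lt_ts
    set Λ := Real.log (Real.log x / Real.log y) with hΛ
    have hΛ0 : 0 ≤ Λ := Real.log_nonneg (by rw [le_div_iff₀ hly0, one_mul]; exact hlyx)
    have hq : 0 ≤ Real.log y / Real.log x := by positivity
    have hp1 : 1 ≤ (1 + Λ) ^ (k + 1) := one_le_pow₀ (by linarith)
    rcases Nat.lt_or_ge x (2 ^ t) with hxt | hxt
    · have h1 : Real.log x ≤ K0 * Real.log y := by
        refine le_trans ?_ hts
        apply Real.log_le_log hx0
        exact_mod_cast hxt.le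
      have h2 : 1 ≤ K0 * (Real.log y / Real.log x) := by
        rw [← mul_div_assoc, le_div_iff₀ hlx0, one_mul]
        exact h1
      have h3 : (((Icc 1 x).filter (fun n => om (2 ^ t) n < k + 1)).card : ℝ) ≤ x := by
        have := (Finset.card_filter_le (Icc 1 x) (fun n => om (2 ^ t) n < k + 1))
        rw [Nat.card_Icc, Nat.add_sub_cancel] at this
        exact_mod_cast this
      refine h3.trans ?_
      have h4 : (1 : ℝ) ≤ (C + 1) * K0 * (1 + Λ) ^ (k + 1) * (Real.log y / Real.log x) := by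
        calc (1 : ℝ) ≤ K0 * (Real.log y / Real.log x) := h2
          _ = 1 * K0 * 1 * (Real.log y / Real.log x) := by ring
          _ ≤ (C + 1) * K0 * (1 + Λ) ^ (k + 1) * (Real.log y / Real.log x) := by
              gcongr
              linarith
      nlinarith
    · have h1 := hC x (2 ^ t) hx (by omega) hxt
      have hlt : Real.log y ≤ Real.log ((2 ^ t : ℕ) : ℝ) := by
        apply Real.log_le_log (by exact_mod_cast (by omega : 0 < y))
        exact_mod_cast hyt.le
      have hlt0 : 0 < Real.log ((2 ^ t : ℕ) : ℝ) := by linarith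
      have hltx : Real.log ((2 ^ t : ℕ) : ℝ) ≤ Real.log x := by
        apply Real.log_le_log (by positivity)
        exact_mod_cast hxt
      have hΛ' : Real.log (Real.log x / Real.log ((2 ^ t : ℕ) : ℝ)) ≤ Λ := by
        apply Real.log_le_log (by positivity)
        gcongr
      have hΛ'0 : 0 ≤ Real.log (Real.log x / Real.log ((2 ^ t : ℕ) : ℝ)) :=
        Real.log_nonneg (by rw [le_div_iff₀ hlt0, one_mul]; exact hltx)
      have h3 : ((Icc 1 x).filter (fun n => om (2 ^ t) n < k + 1)).card =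
          ((Icc 1 x).filter (fun n => om (2 ^ t) n ≤ k)).card := by
        congr 1
        apply Finset.filter_congr
        intro n _
        exact Nat.lt_succ_iff
      rw [h3]
      refine h1.trans ?_
      calc C * x * (1 + Real.log (Real.log x / Real.log ((2 ^ t : ℕ) : ℝ))) ^ k *
            Real.log ((2 ^ t : ℕ) : ℝ) / Real.log x
          ≤ C * x * (1 + Λ) ^ k * (K0 * Real.log y) / Real.log x := by gcongr
        _ ≤ C * x * (1 + Λ) ^ (k + 1) * (K0 * Real.log y) / Real.log x := by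
            have : (1 + Λ) ^ k ≤ (1 + Λ) ^ (k + 1) := pow_le_pow_right₀ (by linarith) (by omega)
            gcongr
        _ ≤ (C + 1) * x * (1 + Λ) ^ (k + 1) * (K0 * Real.log y) / Real.log x := by
            gcongr
            linarith
        _ = _ := by ring

open Classical in
/-- **Tuples which are generic over all the spaces of a family.** -/
theorem family (k m : ℕ) : ∃ C : ℕ, ∀ x y : ℕ, 16 ≤ x → Real.log x ≤ y → y ≤ x →
    ∀ W : Finset (Submodule ℚ ℝ), W.card ≤ y ^ m →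
    (∀ V ∈ W, Module.Finite ℚ V ∧ finrank ℚ V ≤ m) →
    (((Fintype.piFinset (fun _ : Fin k => Icc 1 x)).filter (fun a =>
      ∃ V ∈ W, ¬ IsGenericRow V (fun i => Real.log (a i)))).card : ℝ) ≤
      C * (1 + Real.log (Real.log x / Real.log y)) ^ C * (Real.log y / Real.log x) *
        (x : ℝ) ^ k := by
  obtain ⟨R, hR⟩ := few_S k m
  obtain ⟨K, hK0, hK⟩ := few_Us R m
  refine ⟨2 ^ (k + 1) + k * ⌈K⌉₊ + R, fun x y hx hy hyx W hWc hW => ?_⟩
  set N : ℕ := 2 ^ (k + 1) + k * ⌈K⌉₊ + R with hN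
  have hlx := log_ge hx
  have hll := loglog_ge hx
  have hlx0 : 0 < Real.log x := by linarith
  have hx0 : (0 : ℝ) ≤ x := Nat.cast_nonneg x
  obtain ⟨hy3, hly, hlly⟩ := y_facts hx hy
  have hly0 : 0 < Real.log y := by linarith
  have hlyx : Real.log y ≤ Real.log x := Real.log_le_log (by exact_mod_cast (by omega : 0 < y))
    (by exact_mod_cast hyx)
  set t := ts R m x y with ht
  set Λ := Real.log (Real.log x / Real.log y) with hΛ
  have hΛ0 : 0 ≤ Λ := Real.log_nonneg (by rw [le_div_iff₀ hly0, one_mul]; exact hlyx)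
  set U := (Icc 1 x).filter (fun n => om (2 ^ t) n < R) with hUd
  set u : ℝ := K * (1 + Λ) ^ R * (Real.log y / Real.log x) with hu
  set F := (Fintype.piFinset (fun _ : Fin k => Icc 1 x)).filter (fun a =>
      ∃ V ∈ W, ¬ IsGenericRow V (fun i => Real.log (a i))) with hF
  set F1 : Submodule ℚ ℝ → Finset (Fin k → ℕ) := fun V =>
    (Fintype.piFinset (fun _ : Fin k => Icc 1 x)).filter (fun a =>
      (∀ i, R ≤ om (2 ^ t) (a i)) ∧ ¬ IsGenericRow V (fun i => Real.log (a i))) with hF1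
  set F2 : Fin k → Finset (Fin k → ℕ) := fun i =>
      (Fintype.piFinset (fun _ : Fin k => Icc 1 x)).filter (fun a => a i ∈ U) with hF2
  have hcov : F ⊆ (W.biUnion F1) ∪ (Finset.univ.biUnion F2) := by
    intro a ha
    have ha1 := (Finset.mem_filter.1 ha).1
    obtain ⟨V, hV, hVa⟩ := (Finset.mem_filter.1 ha).2
    rw [Finset.mem_union, Finset.mem_biUnion, Finset.mem_biUnion]
    by_cases h : ∃ i, om (2 ^ t) (a i) < R
    · obtain ⟨i, hi⟩ := h
      exact Or.inr ⟨i, Finset.mem_univ _, Finset.mem_filter.2 ⟨ha1,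
        Finset.mem_filter.2 ⟨Fintype.mem_piFinset.1 ha1 i, hi⟩⟩⟩
    · push Not at h
      exact Or.inl ⟨V, hV, Finset.mem_filter.2 ⟨ha1, h, hVa⟩⟩
  have h1 : (F.card : ℝ) ≤ ∑ V ∈ W, ((F1 V).card : ℝ) + ∑ i, ((F2 i).card : ℝ) := by
    have h2 := (Finset.card_le_card hcov).trans (Finset.card_union_le _ _)
    have h3 : F.card ≤ ∑ V ∈ W, (F1 V).card + ∑ i, (F2 i).card :=
      h2.trans (Nat.add_le_add Finset.card_biUnion_le Finset.card_biUnion_le)
    exact_mod_cast h3
  have h2 : ∀ V ∈ W, ((F1 V).card : ℝ) ≤ 2 ^ k * ee R x t * (x : ℝ) ^ k := by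
    intro V hV
    have hVf := (hW V hV).1
    refine hR x t V hVf (hW V hV).2 _ (Finset.filter_subset _ _)
      (fun a ha => (Finset.mem_filter.1 ha).2.1) (fun a ha => (Finset.mem_filter.1 ha).2.2)
  have h3 : ∀ i, ((F2 i).card : ℝ) ≤ u * (x : ℝ) ^ k := fun i =>
    count_one x U i u (hK x y hx hy hyx)
  have h4 := Finset.sum_le_sum h2
  have h5 := Finset.sum_le_sum (fun i (_ : i ∈ Finset.univ) => h3 i)
  rw [Finset.sum_const, nsmul_eq_mul] at h4
  rw [Finset.sum_const, Finset.card_univ, Fintype.card_fin, nsmul_eq_mul] at h5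
  have hE := ee_pos R x t
  have h6 : (W.card : ℝ) * (2 ^ k * ee R x t * (x : ℝ) ^ k) ≤
      2 ^ (k + 1) * (Real.log y / Real.log x) * (x : ℝ) ^ k := by
    have h7 : (W.card : ℝ) ≤ (y : ℝ) ^ m := by exact_mod_cast hWc
    have h8 := ee_ts (R := R) (m := m) hx hy
    rw [← ht] at h8
    have h9 : 2 / Real.log x ≤ 2 * (Real.log y / Real.log x) := by
      rw [← mul_div_assoc]
      gcongr
      linarith
    calc (W.card : ℝ) * (2 ^ k * ee R x t * (x : ℝ) ^ k)
        ≤ (y : ℝ) ^ m * (2 ^ k * ee R x t * (x : ℝ) ^ k) := by gcongr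
      _ = ((y : ℝ) ^ m * ee R x t) * (2 ^ k * (x : ℝ) ^ k) := by ring
      _ ≤ (2 * (Real.log y / Real.log x)) * (2 ^ k * (x : ℝ) ^ k) := by
          have := h8.trans h9
          gcongr
      _ = _ := by rw [pow_succ (2 : ℝ) k]; ring
  refine (h1.trans (add_le_add (h4.trans h6) h5)).trans ?_
  have h7 : (1 : ℝ) ≤ (1 + Λ) ^ N := one_le_pow₀ (by linarith)
  have h8 : (1 + Λ) ^ R ≤ (1 + Λ) ^ N := pow_le_pow_right₀ (by linarith) (Nat.le_add_left _ _)
  have h9 : K ≤ ⌈K⌉₊ := Nat.le_ceil _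
  have h10 : (0 : ℝ) ≤ Real.log y / Real.log x := by positivity
  calc 2 ^ (k + 1) * (Real.log y / Real.log x) * (x : ℝ) ^ k + (k : ℝ) * (u * (x : ℝ) ^ k)
      ≤ (2 ^ (k + 1) * (1 + Λ) ^ N) * (Real.log y / Real.log x) * (x : ℝ) ^ k +
        (k : ℝ) * ((⌈K⌉₊ * (1 + Λ) ^ N * (Real.log y / Real.log x)) * (x : ℝ) ^ k) := by
        have h11 : (2 : ℝ) ^ (k + 1) ≤ 2 ^ (k + 1) * (1 + Λ) ^ N :=
          le_mul_of_one_le_right (by positivity) h7
        rw [hu]
        gcongr
    _ = ((2 ^ (k + 1) + k * ⌈K⌉₊ : ℕ) : ℝ) * (1 + Λ) ^ N * (Real.log y / Real.log x) *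
          (x : ℝ) ^ k := by
        push_cast
        ring
    _ ≤ (N : ℝ) * (1 + Λ) ^ N * (Real.log y / Real.log x) * (x : ℝ) ^ k := by
        have h12 : ((2 ^ (k + 1) + k * ⌈K⌉₊ : ℕ) : ℝ) ≤ N := by
          exact_mod_cast (Nat.le_add_right _ _ : 2 ^ (k + 1) + k * ⌈K⌉₊ ≤ N)
        gcongr

end Pool.Agent.V8H74.TP
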