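import Pool.Agent.R350.TwoRate
import Pool.Agent.R350.GU

/-!
# Integers with many large prime factors: power saving in the density theorem
-/

set_option autoImplicit false

namespace Pool.Agent.V8H74.TP

open Finset Module Pool.Agent.TH813.Rough Pool.Agent.TH681.QC Pool.Agent.R350
open Pool.Agent.W245 Pool.Agent.W245.PB

theorem box_card' {A : Finset ℕ} {t a y R : ℕ} (ha : 0 < a) (hy : y < 2 ^ t)
    (hA : ¬ HasCube R y A) (j : Fin R → ℕ) (e : ℝ) (he : 0 < e) (he1 : e ≤ 1)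
    (hz : (2 / e) ^ (2 ^ R) ≤ (2 : ℝ) ^ t) :
    ((box A (2 ^ t) a j).card : ℝ) ≤ e * ∏ i, (2 : ℝ) ^ (j i) := by
  classical
  by_contra hcon
  push Not at hcon
  have hpos : 0 < (box A (2 ^ t) a j).card := by
    have : (0 : ℝ) < (box A (2 ^ t) a j).card := lt_of_le_of_lt (by positivity) hcon
    exact_mod_cast this
  obtain ⟨f, hf⟩ := card_pos.1 hpos
  unfold Pool.Agent.TH681.QC.box at hf
  rw [mem_filter, Fintype.mem_piFinset] at hf
  have htj : ∀ i, t ≤ j i := by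
    intro i
    have h1 := hf.1 i
    unfold dy at h1
    rw [mem_Ico] at h1
    have : 2 ^ t < 2 ^ (j i + 1) := lt_of_le_of_lt (hf.2.1 i).2 h1.2
    have := (Nat.pow_lt_pow_iff_right (by norm_num : 1 < 2)).1 this
    omega
  obtain ⟨p, q, hne, h⟩ := boxes R (fun i => dy (j i)) (Edge A (2 ^ t) a) e he he1 (by
      intro i
      rw [card_dy]
      push_cast
      exact hz.trans (pow_le_pow_right₀ (by norm_num) (htj i))) (by
      simp only [card_dy]
      push_cast
      unfold Pool.Agent.TH681.QC.box at hcon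
      exact hcon.le)
  exact hA (cube_of_box ha hy hne h)

open Classical in
theorem count_many' {A : Finset ℕ} {y R x t : ℕ} (hAx : A ⊆ Ioc 0 x) (hA : ¬ HasCube R y A)
    (hy : y < 2 ^ t) (e : ℝ) (he : 0 < e) (he1 : e ≤ 1) (hz : (2 / e) ^ (2 ^ R) ≤ (2 : ℝ) ^ t)
    (hom : ∀ n ∈ A, R ≤ om (2 ^ t) n) :
    (A.card : ℝ) ≤ ((Nat.log 2 x + 1 : ℕ) : ℝ) ^ R * e * x := by
  set L := Nat.log 2 x + 1 with hLd
  have hL : 0 < L := Nat.succ_pos _
  have hL0 : (0 : ℝ) < L := by exact_mod_cast hL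
  set J : Finset (Fin R → ℕ) := Fintype.piFinset (fun _ : Fin R => range L) with hJ
  have hsub : A ⊆
      J.biUnion (fun j => (Icc 1 (x / ∏ i, 2 ^ (j i))).biUnion (fun a =>
        (box A (2 ^ t) a j).image (fun f => a * ∏ i, f i))) := by
    intro n hnA
    have hnx := mem_Ioc.1 (hAx hnA)
    obtain ⟨a, f, h1, h2, h3, h4, h5⟩ := many_primes (by omega) (hom n hnA)
    have hfx : ∀ i, f i ≤ x := fun i => (Nat.le_of_dvd hnx.1 (h5 i)).trans hnx.2
    rw [mem_biUnion]
    refine ⟨fun i => Nat.log 2 (f i), ?_, ?_⟩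
    · rw [hJ, Fintype.mem_piFinset]
      intro i
      rw [mem_range]
      exact Nat.lt_succ_of_le (Nat.log_mono_right (hfx i))
    · rw [mem_biUnion]
      refine ⟨a, ?_, ?_⟩
      · rw [mem_Icc]
        refine ⟨h2, ?_⟩
        rw [Nat.le_div_iff_mul_le (prod_pos (fun i _ => by positivity))]
        refine le_trans ?_ hnx.2
        rw [h1]
        exact Nat.mul_le_mul_left a (prod_le_prod' (fun i _ => Nat.pow_log_le_self 2 (h3 i).1.ne_zero))
      · rw [mem_image]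
        refine ⟨f, ?_, h1.symm⟩
        unfold Pool.Agent.TH681.QC.box
        rw [mem_filter, Fintype.mem_piFinset]
        exact ⟨fun i => mem_dy (h3 i).1.ne_zero, h3, h4, by rw [← h1]; exact hnA⟩
  have h1 : (A.card : ℝ) ≤
      ∑ j ∈ J, ∑ a ∈ Icc 1 (x / ∏ i, 2 ^ (j i)), ((box A (2 ^ t) a j).card : ℝ) := by
    have h2 := (card_le_card hsub).trans card_biUnion_le
    have h3 : A.card ≤
        ∑ j ∈ J, ∑ a ∈ Icc 1 (x / ∏ i, 2 ^ (j i)), (box A (2 ^ t) a j).card := by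
      refine h2.trans (sum_le_sum (fun e _ => ?_))
      refine card_biUnion_le.trans (sum_le_sum (fun m _ => ?_))
      exact card_image_le
    exact_mod_cast h3
  refine h1.trans ?_
  calc ∑ j ∈ J, ∑ a ∈ Icc 1 (x / ∏ i, 2 ^ (j i)), ((box A (2 ^ t) a j).card : ℝ)
      ≤ ∑ j ∈ J, e * x := by
        refine sum_le_sum (fun j _ => ?_)
        have h2 : ∑ a ∈ Icc 1 (x / ∏ i, 2 ^ (j i)), ((box A (2 ^ t) a j).card : ℝ) ≤
            ∑ a ∈ Icc 1 (x / ∏ i, 2 ^ (j i)), e * ∏ i, (2 : ℝ) ^ (j i) := by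
          refine sum_le_sum (fun a ha => ?_)
          rw [mem_Icc] at ha
          exact box_card' ha.1 hy hA j e he he1 hz
        refine h2.trans ?_
        rw [sum_const, Nat.card_Icc, Nat.add_sub_cancel, nsmul_eq_mul]
        have h3 : ((x / ∏ i, 2 ^ (j i) : ℕ) : ℝ) ≤ (x : ℝ) / ∏ i, (2 : ℝ) ^ (j i) := by
          have := Nat.cast_div_le (α := ℝ) (m := x) (n := ∏ i, 2 ^ (j i))
          push_cast at this
          exact this
        have hpos : (0 : ℝ) < ∏ i, (2 : ℝ) ^ (j i) := prod_pos (fun i _ => by positivity)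
        calc ((x / ∏ i, 2 ^ (j i) : ℕ) : ℝ) * (e * ∏ i, (2 : ℝ) ^ (j i))
            ≤ (x : ℝ) / (∏ i, (2 : ℝ) ^ (j i)) * (e * ∏ i, (2 : ℝ) ^ (j i)) :=
              mul_le_mul_of_nonneg_right h3 (by positivity)
          _ = e * x := by
              field_simp
    _ = (L : ℝ) ^ R * e * x := by
        rw [sum_const, hJ, Fintype.card_piFinset, nsmul_eq_mul]
        simp only [card_range, prod_const, card_univ, Fintype.card_fin]
        push_cast
        ring

/-- the error term -/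
noncomputable def ee (R x t : ℕ) : ℝ :=
  ((Nat.log 2 x + 1 : ℕ) : ℝ) ^ R * (2 * (2 : ℝ) ^ (-(t : ℝ) / (2 : ℝ) ^ R))

theorem ee_pos (R x t : ℕ) : 0 < ee R x t := by
  unfold ee
  positivity

theorem structured_count {A : Finset ℕ} {R x t : ℕ} (hAx : A ⊆ Ioc 0 x) (hA : ¬ HasCube R 0 A)
    (hom : ∀ n ∈ A, R ≤ om (2 ^ t) n) : (A.card : ℝ) ≤ ee R x t * x := by
  set e : ℝ := 2 * (2 : ℝ) ^ (-(t : ℝ) / (2 : ℝ) ^ R) with hed
  have he : 0 < e := by positivity
  have hee : ee R x t = ((Nat.log 2 x + 1 : ℕ) : ℝ) ^ R * e := rfl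
  rw [hee]
  rcases le_or_gt e 1 with he1 | he1
  · refine count_many' hAx hA (by positivity) e he he1 (le_of_eq ?_) hom
    have h1 : 2 / e = (2 : ℝ) ^ ((t : ℝ) / (2 : ℝ) ^ R) := by
      rw [hed, neg_div, Real.rpow_neg (by norm_num)]
      field_simp
    rw [h1, ← Real.rpow_natCast ((2 : ℝ) ^ ((t : ℝ) / (2 : ℝ) ^ R)) (2 ^ R),
      ← Real.rpow_mul (by norm_num), ← Real.rpow_natCast 2 t]
    have h2 : (t : ℝ) / (2 : ℝ) ^ R * ((2 ^ R : ℕ) : ℝ) = (t : ℝ) := by
      push_cast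
      exact div_mul_cancel₀ _ (by positivity)
    rw [h2]
  · have h1 : (A.card : ℝ) ≤ x := by
      have := card_le_card hAx
      rw [Nat.card_Ioc, Nat.sub_zero] at this
      exact_mod_cast this
    have h2 : (1 : ℝ) ≤ ((Nat.log 2 x + 1 : ℕ) : ℝ) ^ R := one_le_pow₀ (by push_cast; linarith [Nat.cast_nonneg (α := ℝ) (Nat.log 2 x)])
    have h3 : (1 : ℝ) ≤ ((Nat.log 2 x + 1 : ℕ) : ℝ) ^ R * e := by nlinarith
    have hx0 : (0 : ℝ) ≤ x := Nat.cast_nonneg x
    nlinarith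

/-- the one-variable theorem for integers with many large prime factors -/
theorem one_var_S (m v : ℕ) : ∃ R : ℕ, ∀ x t : ℕ,
    ∀ (κ C : Type) [Field κ] [Field C] [Algebra κ C] (lg : ℕ → C) (L : Submodule κ C),
    Setup v lg L → ∀ Ω0 Ω1 F : Submodule κ C, Module.Finite κ Ω0 → Module.Finite κ Ω1 →
    Module.Finite κ F → finrank κ Ω0 ≤ m → finrank κ Ω1 ≤ m → finrank κ F ≤ m →
    ∀ A : Finset ℕ, A ⊆ Ioc 0 x → (∀ n ∈ A, R ≤ om (2 ^ t) n) →
    (∀ n ∈ A, lg n ∈ F ∨ Exc L Ω0 Ω1 (lg n)) →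
    (A.card : ℝ) ≤ ee R x t * x := by
  classical
  refine ⟨gridR m v + m + 1, fun x t κ C _ _ _ lg L hS Ω0 Ω1 F h1 h2 h3 h4 h5 h6 A hA hom hbad => ?_⟩
  refine structured_count hA ?_ hom
  rintro ⟨a, p, q, ha, hp, hq, hinj, hcube⟩
  obtain ⟨S, -, hS1, hS2⟩ := grid_avoid hS.hyp hS.one hS.two Ω0 Ω1 F h4 h5 h6
    (z := lg (a * ∏ i, p i)) (hS.mem _ (Nat.mul_pos ha
      (Finset.prod_pos fun i _ => (hp i).1.pos)))
    (fun i => lg (q i) - lg (p i))
    (fun i => L.sub_mem (hS.mem _ (hq i).1.pos) (hS.mem _ (hp i).1.pos))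
    (hS.lglike.indep _ p q (fun i => (hp i).1) (fun i => (hq i).1) hinj)
  have h7 := hbad _ (hcube S)
  rw [hS.lglike.cube a p q ha (fun i => (hp i).1.pos) (fun i => (hq i).1.pos) S] at h7
  rcases h7 with h7 | h7
  · exact hS1 h7
  · exact hS2 h7

/-- the theorem for tuples of integers with many large prime factors -/
theorem chain_S (m v : ℕ) : ∃ R : ℕ, ∀ k x t : ℕ,
    ∀ (κ C : Type) [Field κ] [Field C] [Algebra κ C] (lg : ℕ → C) (L : Submodule κ C),
    Setup v lg L → ∀ Ω0 Ω1 F : Fin k → (Fin k → ℕ) → Submodule κ C, Pred m Ω0 → Pred m Ω1 →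
    Pred m F → ∀ B : Finset (Fin k → ℕ), B ⊆ Fintype.piFinset (fun _ : Fin k => Ioc 0 x) →
    (∀ a ∈ B, ∀ i, R ≤ om (2 ^ t) (a i)) →
    (∀ a ∈ B, ∃ j, BadAt lg L Ω0 Ω1 F a j) → (B.card : ℝ) ≤ 2 ^ k * ee R x t * x ^ k := by
  classical
  obtain ⟨R, hR⟩ := one_var_S m v
  refine ⟨R, fun k => ?_⟩
  induction k with
  | zero =>
    intro x t κ C _ _ _ lg L hS Ω0 Ω1 F h0 h1 hF B hB hom hbad
    have : B = ∅ := by
      rw [Finset.eq_empty_iff_forall_notMem]
      intro a ha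
      obtain ⟨j, -⟩ := hbad a ha
      exact j.elim0
    rw [this]
    simp [(ee_pos R x t).le]
  | succ k ih =>
    intro x t κ C _ _ _ lg L hS Ω0 Ω1 F h0 h1 hF B hB hom hbad
    have hE := ee_pos R x t
    refine count_cons k x _ (by positivity)
      (fun a => (∀ i, R ≤ om (2 ^ t) (a i)) ∧ ∃ j, BadAt lg L Ω0 Ω1 F a j)
      ((Ioc 0 x).filter (fun n => R ≤ om (2 ^ t) n ∧ (lg n ∈ F 0 (fun _ => n) ∨
        Exc L (Ω0 0 (fun _ => n)) (Ω1 0 (fun _ => n)) (lg n))))
      (Finset.filter_subset _ _) ?_ ?_ B hB (fun a ha => ⟨hom a ha, hbad a ha⟩)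
    · have e0 : ∀ n : ℕ, Ω0 0 (fun _ => n) = Ω0 0 (fun _ => 0) := fun n =>
        h0.dep _ _ _ (fun i hi => absurd hi (Fin.not_lt_zero i))
      have e1 : ∀ n : ℕ, Ω1 0 (fun _ => n) = Ω1 0 (fun _ => 0) := fun n =>
        h1.dep _ _ _ (fun i hi => absurd hi (Fin.not_lt_zero i))
      have e2 : ∀ n : ℕ, F 0 (fun _ => n) = F 0 (fun _ => 0) := fun n =>
        hF.dep _ _ _ (fun i hi => absurd hi (Fin.not_lt_zero i))
      refine (hR x t κ C lg L hS (Ω0 0 (fun _ => 0)) (Ω1 0 (fun _ => 0)) (F 0 (fun _ => 0))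
        (h0.fin _ _) (h1.fin _ _) (hF.fin _ _) (h0.le _ _) (h1.le _ _) (hF.le _ _)
        _ (Finset.filter_subset _ _) (fun n hn => (Finset.mem_filter.1 hn).2.1) (fun n hn => by
          have h3 := (Finset.mem_filter.1 hn).2.2
          rwa [e0, e1, e2] at h3)).trans ?_
      have h2 : ee R x t ≤ 2 ^ (k + 1) * ee R x t / 2 := by
        rw [pow_succ]
        have : (1 : ℝ) ≤ 2 ^ k := one_le_pow₀ (by norm_num)
        nlinarith
      gcongr
    · intro a0 ha0 ha0A B' hB' hbad'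
      by_cases hB0 : B' = ∅
      · rw [hB0]
        simp only [card_empty, Nat.cast_zero]
        positivity
      obtain ⟨b0, hb0⟩ := Finset.nonempty_iff_ne_empty.2 hB0
      have ha0R : R ≤ om (2 ^ t) a0 := by
        have := (hbad' b0 hb0).1 0
        rwa [Fin.cons_zero] at this
      have ha : ¬ (lg a0 ∈ F 0 (fun _ => a0) ∨
          Exc L (Ω0 0 (fun _ => a0)) (Ω1 0 (fun _ => a0)) (lg a0)) := fun h =>
        ha0A (Finset.mem_filter.2 ⟨ha0, ha0R, h⟩)
      refine (ih x t κ C lg L hS _ _ _ (h0.tail a0) (h1.tail a0) (hF.tail a0) B' hB' ?_ ?_).trans ?_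
      · intro a haB i
        have := (hbad' a haB).1 i.succ
        rwa [Fin.cons_succ] at this
      · intro a haB
        obtain ⟨j, hj⟩ := (hbad' a haB).2
        revert hj
        refine Fin.cases ?_ ?_ j
        · intro hj
          exfalso
          apply ha
          unfold BadAt at hj
          rw [Fin.cons_zero] at hj
          rwa [h0.dep 0 (Fin.cons a0 a) (fun _ => a0)
            (fun i hi => absurd hi (Fin.not_lt_zero i)),
            h1.dep 0 (Fin.cons a0 a) (fun _ => a0) (fun i hi => absurd hi (Fin.not_lt_zero i)),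
            hF.dep 0 (Fin.cons a0 a) (fun _ => a0)
              (fun i hi => absurd hi (Fin.not_lt_zero i))] at hj
        · intro j' hj
          refine ⟨j', ?_⟩
          unfold BadAt at hj ⊢
          rwa [Fin.cons_succ] at hj
      · rw [pow_succ]
        apply le_of_eq
        ring

section

/-- **The density theorem for matrices with a generic row, integers with many large primes.** -/
theorem rate_two_S (k m v : ℕ) : ∃ R : ℕ, ∀ x t : ℕ, ∀ (K κ C : Type) [Field K] [Field κ] [Field C]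
    [Algebra K C] [Algebra κ C] [Algebra K κ] [IsScalarTower K κ C] (lg : ℕ → C)
    (L : Submodule κ C), Setup v lg L → ∀ V : Submodule K C, Module.Finite K V →
    finrank K V ≤ m → ∀ B : Finset (Fin k → ℕ),
    B ⊆ Fintype.piFinset (fun _ : Fin k => Ioc 0 x) →
    (∀ a ∈ B, ∀ i, R ≤ om (2 ^ t) (a i)) → (∀ a ∈ B, ¬ Good2 V L lg a) →
    (B.card : ℝ) ≤ 2 ^ k * ee R x t * x ^ k := by
  classical
  set N := m + k + 1 with hN
  obtain ⟨R, hR⟩ := chain_S (N * (N + (v + m)) * N + N) (v + m)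
  refine ⟨R, fun x t K κ C _ _ _ _ _ _ _ lg L hS V hVf hVm B hB hom hbad => ?_⟩
  have hspan := spanK_finite (κ := κ) V
  have hS' := hS.sup (Submodule.span κ (V : Set C)) ((finrank_spanK_le V).trans hVm)
  have hP : Pred N (omega0 (κ := κ) V lg k) := omega0_pred V lg k hVm le_rfl
  refine hR k x t κ C lg (L ⊔ Submodule.span κ (V : Set C)) hS' (omega0 V lg k)
    (fun _ _ => Submodule.span κ {1})
    (fun j a => suppSp (v + m) (L ⊔ Submodule.span κ (V : Set C)) (omega0 (κ := κ) V lg k j a) ⊔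
        omega0 V lg k j a) (omega0_pred V lg k hVm (by omega))
    (const_pred _ span_one_finite (finrank_span_one_le.trans (by omega)))
    (supp_pred hS'.hyp hP le_rfl) B hB hom ?_
  intro a haB
  by_contra hno
  push Not at hno
  have ha : ∀ i, 0 < a i := fun i => by
    have := (Fintype.mem_piFinset.1 (hB haB)) i
    exact (Finset.mem_Ioc.1 this).1
  exact hbad a haB (good2_of_chain V hS' a ha hno)

end

end Pool.Agent.V8H74.TP
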