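import Pool.Agent.V8H74.TP.Two

/-!
# Tuples of integers: the rate
-/

set_option autoImplicit false

namespace Pool.Agent.V8H74.TP

open Finset Module Pool.Agent.TH813.Rough Pool.Agent.TH681.QC Pool.Agent.R350
open Pool.Agent.Results.MP_bbc1fa_nt.GenericRow (IsGenericRow φ φ_inj finrank_map genericRow_of_good2f)

theorem L_low {x : ℕ} (hx : 16 ≤ x) : Real.log x ≤ ((Nat.log 2 x + 1 : ℕ) : ℝ) := by
  have hx0 : (0 : ℝ) < x := by exact_mod_cast (by omega : 0 < x)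
  have hl2' : Real.log 2 ≤ 1 := by
    have := Real.log_two_lt_d9
    linarith
  have h3 : x < 2 ^ (Nat.log 2 x + 1) := Nat.lt_pow_succ_log_self (by norm_num) x
  have h4 : Real.log x ≤ Real.log ((2 : ℝ) ^ (Nat.log 2 x + 1)) := by
    apply Real.log_le_log hx0
    exact_mod_cast h3.le
  rw [Real.log_pow] at h4
  have h5 : ((Nat.log 2 x + 1 : ℕ) : ℝ) * Real.log 2 ≤ ((Nat.log 2 x + 1 : ℕ) : ℝ) * 1 :=
    mul_le_mul_of_nonneg_left hl2' (Nat.cast_nonneg _)
  linarith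

theorem L_up {x : ℕ} (hx : 16 ≤ x) : ((Nat.log 2 x + 1 : ℕ) : ℝ) ≤ 3 * Real.log x := by
  have hl2'' : 1 / 2 ≤ Real.log 2 := by
    have := Real.log_two_gt_d9
    linarith
  have h3 : 2 ^ (Nat.log 2 x) ≤ x := Nat.pow_log_le_self 2 (by omega)
  have h4 : Real.log ((2 : ℝ) ^ (Nat.log 2 x)) ≤ Real.log x := by
    apply Real.log_le_log (by positivity)
    exact_mod_cast h3
  rw [Real.log_pow] at h4
  have h5 : ((Nat.log 2 x : ℕ) : ℝ) * (1 / 2) ≤ (Nat.log 2 x : ℕ) * Real.log 2 :=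
    mul_le_mul_of_nonneg_left hl2'' (Nat.cast_nonneg _)
  have h6 := log_ge hx
  push_cast
  linarith

theorem logL {x : ℕ} (hx : 16 ≤ x) :
    ((Nat.log 2 (Nat.log 2 x + 1) : ℕ) : ℝ) ≤ 6 * Real.log (Real.log x) := by
  have hlx := log_ge hx
  have hll := loglog_ge hx
  have hlx0 : 0 < Real.log x := by linarith
  have hLup := L_up hx
  set L := Nat.log 2 x + 1 with hLd
  have hL : 0 < L := Nat.succ_pos _
  have hL0 : (0 : ℝ) < L := by exact_mod_cast hL
  have hl2'' : 1 / 2 ≤ Real.log 2 := by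
    have := Real.log_two_gt_d9
    linarith
  have hlogL : Real.log L ≤ 3 * Real.log (Real.log x) := by
    have h3 : Real.log L ≤ Real.log (3 * Real.log x) := Real.log_le_log hL0 hLup
    rw [Real.log_mul (by norm_num) hlx0.ne'] at h3
    have h4 : Real.log 3 ≤ 2 := by
      have := Real.log_le_sub_one_of_pos (show (0 : ℝ) < 3 by norm_num)
      linarith
    linarith
  have h3 : 2 ^ (Nat.log 2 L) ≤ L := Nat.pow_log_le_self 2 (by omega)
  have h4 : Real.log ((2 : ℝ) ^ (Nat.log 2 L)) ≤ Real.log L := by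
    apply Real.log_le_log (by positivity)
    exact_mod_cast h3
  rw [Real.log_pow] at h4
  have h5 : ((Nat.log 2 L : ℕ) : ℝ) * (1 / 2) ≤ (Nat.log 2 L : ℕ) * Real.log 2 :=
    mul_le_mul_of_nonneg_left hl2'' (Nat.cast_nonneg _)
  linarith

/-- the parameter -/
def tt (R x : ℕ) : ℕ := 2 ^ R * ((R + 3) * (Nat.log 2 (Nat.log 2 x + 1) + 1))

theorem ee_tt {R x : ℕ} (hx : 16 ≤ x) : ee R x (tt R x) ≤ 2 / Real.log x ^ 2 := by
  have hlx := log_ge hx
  have hL := L_low hx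
  set L := Nat.log 2 x + 1 with hLd
  have hL0 : (0 : ℝ) < L := by linarith
  have h1 : (2 : ℝ) ^ (-((tt R x : ℕ) : ℝ) / (2 : ℝ) ^ R) =
      (((2 : ℝ) ^ (Nat.log 2 L + 1)) ^ (R + 3))⁻¹ := by
    have h2 : (-((tt R x : ℕ) : ℝ) / (2 : ℝ) ^ R) = -(((Nat.log 2 L + 1) * (R + 3) : ℕ) : ℝ) := by
      unfold tt
      push_cast
      rw [← hLd]
      field_simp
    rw [h2, Real.rpow_neg (by norm_num), Real.rpow_natCast, pow_mul]
  have h3 : (L : ℝ) ≤ (2 : ℝ) ^ (Nat.log 2 L + 1) := by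
    exact_mod_cast (Nat.lt_pow_succ_log_self (by norm_num) L).le
  unfold ee
  rw [h1]
  calc ((L : ℕ) : ℝ) ^ R * (2 * (((2 : ℝ) ^ (Nat.log 2 L + 1)) ^ (R + 3))⁻¹)
      ≤ ((L : ℕ) : ℝ) ^ R * (2 * ((L : ℝ) ^ (R + 3))⁻¹) := by gcongr
    _ = 2 / (L : ℝ) ^ 3 := by
        rw [pow_add]
        field_simp
    _ ≤ 2 / Real.log x ^ 3 := by gcongr
    _ ≤ 2 / Real.log x ^ 2 := by
        have : Real.log x ^ 2 ≤ Real.log x ^ 3 := pow_le_pow_right₀ (by linarith) (by norm_num)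
        gcongr

theorem tt_le {R x : ℕ} (hx : 16 ≤ x) :
    Real.log ((2 ^ tt R x : ℕ) : ℝ) ≤ ((2 : ℝ) ^ R * ((R + 3) * 7)) * Real.log (Real.log x) := by
  have hll := loglog_ge hx
  have h1 := logL hx
  have hl2' : Real.log 2 ≤ 1 := by
    have := Real.log_two_lt_d9
    linarith
  have h8 : Real.log ((2 ^ tt R x : ℕ) : ℝ) = (tt R x : ℝ) * Real.log 2 := by
    rw [Nat.cast_pow, Real.log_pow]; norm_num
  have h9 : (tt R x : ℝ) * Real.log 2 ≤ tt R x := by
    calc (tt R x : ℝ) * Real.log 2 ≤ tt R x * 1 :=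
          mul_le_mul_of_nonneg_left hl2' (Nat.cast_nonneg _)
      _ = tt R x := mul_one _
  rw [h8]
  refine h9.trans ?_
  unfold tt
  push_cast
  have h2 : ((Nat.log 2 (Nat.log 2 x + 1) : ℕ) : ℝ) + 1 ≤ 7 * Real.log (Real.log x) := by linarith
  calc (2 : ℝ) ^ R * ((R + 3) * (((Nat.log 2 (Nat.log 2 x + 1) : ℕ) : ℝ) + 1))
      ≤ (2 : ℝ) ^ R * ((R + 3) * (7 * Real.log (Real.log x))) := by gcongr
    _ = _ := by ring

theorem few_U (R : ℕ) : ∃ C : ℝ, 0 ≤ C ∧ ∀ x : ℕ, 16 ≤ x →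
    (((Icc 2 x).filter (fun n => om (2 ^ tt R x) n < R)).card : ℝ) ≤
      (C * Real.log (Real.log x) ^ R / Real.log x) * x := by
  rcases Nat.eq_zero_or_pos R with rfl | hR
  · refine ⟨0, le_rfl, fun x hx => ?_⟩
    simp
  · obtain ⟨k, rfl⟩ : ∃ k, R = k + 1 := ⟨R - 1, by omega⟩
    obtain ⟨C, hC0, hC⟩ := rough_count k
    refine ⟨C * ((2 : ℝ) ^ (k + 1) * (((k + 1 : ℕ) + 3) * 7)), by positivity, fun x hx => ?_⟩
    have hlx := log_ge hx
    have hll := loglog_ge hx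
    have h1 := hC x (2 ^ tt (k + 1) x) hx (by
      have : 1 ≤ tt (k + 1) x := by
        unfold tt
        have : 0 < 2 ^ (k + 1) * ((k + 1 + 3) * (Nat.log 2 (Nat.log 2 x + 1) + 1)) := by positivity
        omega
      calc 2 = 2 ^ 1 := rfl
        _ ≤ 2 ^ tt (k + 1) x := Nat.pow_le_pow_right (by norm_num) this)
    have h2 := tt_le (R := k + 1) hx
    have h3 : ((Icc 2 x).filter (fun n => om (2 ^ tt (k + 1) x) n < k + 1)).card ≤
        ((Icc 1 x).filter (fun n => om (2 ^ tt (k + 1) x) n ≤ k)).card := by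
      apply Finset.card_le_card
      intro n hn
      rw [Finset.mem_filter, Finset.mem_Icc] at hn ⊢
      omega
    calc (((Icc 2 x).filter (fun n => om (2 ^ tt (k + 1) x) n < k + 1)).card : ℝ)
        ≤ (((Icc 1 x).filter (fun n => om (2 ^ tt (k + 1) x) n ≤ k)).card : ℝ) := by
          exact_mod_cast h3
      _ ≤ _ := h1
      _ ≤ C * x * Real.log (Real.log x) ^ k *
          (((2 : ℝ) ^ (k + 1) * (((k + 1 : ℕ) + 3) * 7)) * Real.log (Real.log x)) /
            Real.log x := by gcongr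
      _ = _ := by
          rw [pow_succ]
          ring

open Classical in
/-- **The exceptional tuples.** -/
theorem rate (k : ℕ) : ∃ C : ℕ, ∀ x : ℕ, 16 ≤ x →
    (((Fintype.piFinset (fun _ : Fin k => Icc 2 x)).filter (fun a =>
      ¬ IsGenericRow ⊥ (fun i => Real.log (a i)))).card : ℝ) ≤
      C * Real.log (Real.log x) ^ C / Real.log x ^ 2 * (x : ℝ) ^ k := by
  rcases Nat.eq_zero_or_pos k with rfl | hk
  · refine ⟨0, fun x hx => ?_⟩
    have : ((Fintype.piFinset (fun _ : Fin 0 => Icc 2 x)).filter (fun a =>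
      ¬ IsGenericRow ⊥ (fun i => Real.log (a i)))) = ∅ := by
      rw [Finset.filter_eq_empty_iff]
      intro a _
      rw [not_not]
      have hs : (⊥ : Submodule ℚ ℝ) ⊔ Submodule.span ℚ (Set.range fun i : Fin 0 => Real.log (a i)) =
          ⊥ := by
        rw [Set.range_eq_empty, Submodule.span_empty, bot_sup_eq]
      refine ⟨by rw [hs, add_zero], fun M _ hM0 hV _ _ => ?_⟩
      rw [hs] at hM0
      obtain ⟨j, hj⟩ := hV
      exact absurd (hM0 j) hj
    rw [this]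
    simp
  · obtain ⟨k, rfl⟩ : ∃ k', k = k' + 1 := ⟨k - 1, by omega⟩
    obtain ⟨R, hR⟩ := few_one k
    obtain ⟨C1, hC1, hU⟩ := few_U R
    refine ⟨(k + 1) * 2 ^ (k + 1) + (k + 1) ^ 2 * ⌈C1 ^ 2⌉₊ + 2 * R, fun x hx => ?_⟩
    set N : ℕ := (k + 1) * 2 ^ (k + 1) + (k + 1) ^ 2 * ⌈C1 ^ 2⌉₊ + 2 * R with hN
    have hlx := log_ge hx
    have hll := loglog_ge hx
    set t := tt R x with ht
    set U := (Icc 2 x).filter (fun n => om (2 ^ t) n < R) with hUd
    set u : ℝ := C1 * Real.log (Real.log x) ^ R / Real.log x with hu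
    set F := (Fintype.piFinset (fun _ : Fin (k + 1) => Icc 2 x)).filter (fun a =>
      ¬ IsGenericRow ⊥ (fun i => Real.log (a i))) with hF
    set F1 : Fin (k + 1) → Finset (Fin (k + 1) → ℕ) := fun i0 =>
      (Fintype.piFinset (fun _ : Fin (k + 1) => Icc 2 x)).filter (fun a =>
        (∀ i, R ≤ om (2 ^ t) (a (i0.succAbove i))) ∧
          ¬ IsGenericRow ⊥ (fun i => Real.log (a i))) with hF1
    set F2 : Fin (k + 1) × Fin (k + 1) → Finset (Fin (k + 1) → ℕ) := fun p =>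
      if p.1 = p.2 then ∅ else
        (Fintype.piFinset (fun _ : Fin (k + 1) => Icc 2 x)).filter
          (fun a => a p.1 ∈ U ∧ a p.2 ∈ U) with hF2
    have hcov : F ⊆ (Finset.univ.biUnion F1) ∪ (Finset.univ.biUnion F2) := by
      intro a ha
      have ha1 := (Finset.mem_filter.1 ha).1
      have ha2 := (Finset.mem_filter.1 ha).2
      rw [Finset.mem_union, Finset.mem_biUnion, Finset.mem_biUnion]
      by_cases h : ∃ i j, i ≠ j ∧ om (2 ^ t) (a i) < R ∧ om (2 ^ t) (a j) < R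
      · obtain ⟨i, j, hij, hi, hj⟩ := h
        right
        refine ⟨(i, j), Finset.mem_univ _, ?_⟩
        simp only [hF2]
        rw [if_neg hij, Finset.mem_filter]
        exact ⟨ha1, Finset.mem_filter.2 ⟨Fintype.mem_piFinset.1 ha1 i, hi⟩,
          Finset.mem_filter.2 ⟨Fintype.mem_piFinset.1 ha1 j, hj⟩⟩
      · push Not at h
        left
        by_cases h0 : ∃ i, om (2 ^ t) (a i) < R
        · obtain ⟨i0, hi0⟩ := h0
          refine ⟨i0, Finset.mem_univ _, Finset.mem_filter.2 ⟨ha1, fun i => ?_, ha2⟩⟩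
          exact h i0 _ (Fin.succAbove_ne i0 i).symm hi0
        · push Not at h0
          exact ⟨0, Finset.mem_univ _, Finset.mem_filter.2 ⟨ha1, fun i => h0 _, ha2⟩⟩
    have h1 : (F.card : ℝ) ≤ ∑ i0, ((F1 i0).card : ℝ) + ∑ p, ((F2 p).card : ℝ) := by
      have h2 := (Finset.card_le_card hcov).trans (Finset.card_union_le _ _)
      have h3 : F.card ≤ ∑ i0, (F1 i0).card + ∑ p, (F2 p).card :=
        h2.trans (Nat.add_le_add Finset.card_biUnion_le Finset.card_biUnion_le)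
      exact_mod_cast h3
    have hx0 : (0 : ℝ) ≤ x := Nat.cast_nonneg x
    have hl2 : (0 : ℝ) < Real.log x ^ 2 := by positivity
    have h2 : ∀ i0, ((F1 i0).card : ℝ) ≤ 2 ^ (k + 1) / Real.log x ^ 2 * (x : ℝ) ^ (k + 1) := by
      intro i0
      refine (hR x t i0).trans ?_
      have := ee_tt (R := R) hx
      rw [← ht] at this
      calc 2 ^ k * ee R x t * (x : ℝ) ^ (k + 1) ≤ 2 ^ k * (2 / Real.log x ^ 2) * (x : ℝ) ^ (k + 1) := by
            gcongr
        _ = _ := by rw [pow_succ (2 : ℝ) k]; ring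
    have h3 : ∀ p, ((F2 p).card : ℝ) ≤
        ⌈C1 ^ 2⌉₊ * Real.log (Real.log x) ^ (2 * R) / Real.log x ^ 2 * (x : ℝ) ^ (k + 1) := by
      intro p
      simp only [hF2]
      split_ifs with hp
      · simp only [Finset.card_empty, Nat.cast_zero]
        positivity
      · refine (count_two x U p.1 p.2 hp u (hU x hx) (Finset.filter_subset _ _)).trans ?_
        have h4 : u ^ 2 = C1 ^ 2 * Real.log (Real.log x) ^ (2 * R) / Real.log x ^ 2 := by
          rw [hu, div_pow, mul_pow, ← pow_mul, mul_comm R 2]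
        rw [h4]
        have h5 : C1 ^ 2 ≤ ⌈C1 ^ 2⌉₊ := Nat.le_ceil _
        gcongr
    have h4 := Finset.sum_le_sum (fun i0 (_ : i0 ∈ Finset.univ) => h2 i0)
    have h5 := Finset.sum_le_sum (fun p (_ : p ∈ Finset.univ) => h3 p)
    rw [Finset.sum_const, Finset.card_univ, Fintype.card_fin, nsmul_eq_mul] at h4
    rw [Finset.sum_const, Finset.card_univ, Fintype.card_prod, Fintype.card_fin, nsmul_eq_mul] at h5
    refine (h1.trans (add_le_add h4 h5)).trans ?_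
    have h6 : (1 : ℝ) ≤ Real.log (Real.log x) ^ N := one_le_pow₀ hll
    have h7 : Real.log (Real.log x) ^ (2 * R) ≤ Real.log (Real.log x) ^ N :=
      pow_le_pow_right₀ hll (by omega)
    calc ((k + 1 : ℕ) : ℝ) * (2 ^ (k + 1) / Real.log x ^ 2 * (x : ℝ) ^ (k + 1)) +
          (((k + 1) * (k + 1) : ℕ) : ℝ) * (⌈C1 ^ 2⌉₊ * Real.log (Real.log x) ^ (2 * R) /
            Real.log x ^ 2 * (x : ℝ) ^ (k + 1))
        ≤ ((k + 1 : ℕ) : ℝ) * ((2 ^ (k + 1) * Real.log (Real.log x) ^ N) / Real.log x ^ 2 *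
            (x : ℝ) ^ (k + 1)) +
          (((k + 1) * (k + 1) : ℕ) : ℝ) * (⌈C1 ^ 2⌉₊ * Real.log (Real.log x) ^ N /
            Real.log x ^ 2 * (x : ℝ) ^ (k + 1)) := by
          have h8 : (2 : ℝ) ^ (k + 1) ≤ 2 ^ (k + 1) * Real.log (Real.log x) ^ N :=
            le_mul_of_one_le_right (by positivity) h6
          gcongr
      _ = (((k + 1) * 2 ^ (k + 1) + (k + 1) ^ 2 * ⌈C1 ^ 2⌉₊ : ℕ) : ℝ) *
            Real.log (Real.log x) ^ N / Real.log x ^ 2 * (x : ℝ) ^ (k + 1) := by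
          push_cast
          ring
      _ ≤ (N : ℝ) * Real.log (Real.log x) ^ N / Real.log x ^ 2 * (x : ℝ) ^ (k + 1) := by
          have h9 : (((k + 1) * 2 ^ (k + 1) + (k + 1) ^ 2 * ⌈C1 ^ 2⌉₊ : ℕ) : ℝ) ≤ N := by
            exact_mod_cast (by omega : (k + 1) * 2 ^ (k + 1) + (k + 1) ^ 2 * ⌈C1 ^ 2⌉₊ ≤ N)
          gcongr

end Pool.Agent.V8H74.TP
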