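import Pool.Agent.V8H74.TP.One
import Pool.Agent.Results.MP_bbc1fa_nt.GenericRow

/-!
# Tuples of integers: the exceptional tuples
-/

set_option autoImplicit false

namespace Pool.Agent.V8H74.TP

open Finset Module Pool.Agent.TH813.Rough Pool.Agent.TH681.QC Pool.Agent.R350
open Pool.Agent.Results.MP_bbc1fa_nt.GenericRow (IsGenericRow φ φ_inj finrank_map genericRow_of_good2f)

/-- integers all of which have many large prime factors -/
theorem few_S (k m : ℕ) : ∃ R : ℕ, ∀ x t : ℕ, ∀ V : Submodule ℚ ℝ, Module.Finite ℚ V →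
    finrank ℚ V ≤ m → ∀ B : Finset (Fin k → ℕ),
    B ⊆ Fintype.piFinset (fun _ : Fin k => Icc 1 x) →
    (∀ a ∈ B, ∀ i, R ≤ om (2 ^ t) (a i)) →
    (∀ a ∈ B, ¬ IsGenericRow V (fun i => Real.log (a i))) →
    (B.card : ℝ) ≤ 2 ^ k * ee R x t * x ^ k := by
  obtain ⟨R, hR⟩ := rate_two_S k m 0
  refine ⟨R, fun x t V hVf hVm B hB hom hbad => ?_⟩
  have hVf' : Module.Finite ℚ (V.map φ) := Module.Finite.map V φ
  refine hR x t ℚ (algebraicClosure ℚ ℂ) ℂ
    (fun n : ℕ => (Real.log n : ℂ)) _ Pool.Agent.R350.setup_complex (V.map φ) hVf'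
    (by rw [finrank_map]; exact hVm) B hB hom ?_
  intro a ha hgood
  exact hbad a ha (genericRow_of_good2f V _ hgood)

theorem range_insert {k : ℕ} {β : Type*} (f : Fin (k + 1) → β) (i0 : Fin (k + 1)) :
    Set.range f = insert (f i0) (Set.range fun i => f (i0.succAbove i)) := by
  ext y
  constructor
  · rintro ⟨i, rfl⟩
    rcases Fin.eq_self_or_eq_succAbove i0 i with rfl | ⟨j, rfl⟩
    · exact Set.mem_insert _ _
    · exact Set.mem_insert_of_mem _ ⟨j, rfl⟩
  · rintro (rfl | ⟨i, rfl⟩)
    · exact ⟨i0, rfl⟩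
    · exact ⟨_, rfl⟩

theorem finrank_line {n : ℕ} (hn : 2 ≤ n) :
    finrank ℚ (Submodule.span ℚ {Real.log n} : Submodule ℚ ℝ) = 1 := by
  apply finrank_span_singleton
  exact (Real.log_pos (by exact_mod_cast hn)).ne'

theorem generic_cons {k : ℕ} (a : Fin (k + 1) → ℕ) (i0 : Fin (k + 1)) (hn : 2 ≤ a i0)
    (h : IsGenericRow (Submodule.span ℚ {Real.log (a i0)})
      (fun i : Fin k => Real.log (a (i0.succAbove i)))) :
    IsGenericRow ⊥ (fun i => Real.log (a i)) := by
  have hspan : (⊥ : Submodule ℚ ℝ) ⊔ Submodule.span ℚ (Set.range fun i => Real.log (a i)) =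
      Submodule.span ℚ {Real.log (a i0)} ⊔
        Submodule.span ℚ (Set.range fun i : Fin k => Real.log (a (i0.succAbove i))) := by
    rw [bot_sup_eq, range_insert (fun i => Real.log (a i)) i0, Submodule.span_insert]
  refine ⟨?_, ?_⟩
  · rw [hspan, h.1, finrank_line hn, finrank_bot]
    ring
  · intro M hMalg hM0 hV hrow hcol
    rw [hspan] at hM0
    by_cases hex : ∃ j, M 0 j ∉ (Submodule.span ℚ {Real.log (a i0)} : Submodule ℚ ℝ)
    · exact h.2 M hMalg hM0 hex hrow hcol
    · push Not at hex
      intro hdet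
      obtain ⟨q0, hq0⟩ := Submodule.mem_span_singleton.1 (hex 0)
      obtain ⟨q1, hq1⟩ := Submodule.mem_span_singleton.1 (hex 1)
      rw [Rat.smul_def] at hq0 hq1
      have hL : Real.log (a i0) ≠ 0 := (Real.log_pos (by exact_mod_cast hn)).ne'
      rw [Matrix.det_fin_two, ← hq0, ← hq1] at hdet
      have h1 : (q0 : ℝ) * M 1 1 = q1 * M 1 0 := by
        have h2 : Real.log (a i0) * ((q0 : ℝ) * M 1 1) = Real.log (a i0) * (q1 * M 1 0) := by
          linear_combination hdet
        exact mul_left_cancel₀ hL h2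
      have h2 := Fintype.linearIndependent_iff.1 hcol ![q1, -q0] (by
        rw [Fin.sum_univ_two]
        funext i
        simp only [Matrix.cons_val_zero, Matrix.cons_val_one, Pi.add_apply, Pi.smul_apply,
          Pi.zero_apply, Rat.smul_def]
        fin_cases i
        · simp only [Fin.zero_eta, ← hq0, ← hq1]
          push_cast
          ring
        · simp only [Fin.mk_one]
          push_cast
          linear_combination -h1)
      have h3 := h2 0
      have h4 := h2 1
      simp only [Matrix.cons_val_zero, Matrix.cons_val_one, neg_eq_zero] at h3 h4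
      obtain ⟨j, hj⟩ := hV
      apply hj
      fin_cases j
      · simp only [Fin.zero_eta, ← hq0, h4]
        simp
      · simp only [Fin.mk_one, ← hq1, h3]
        simp

open Classical in
/-- tuples in which all but one of the integers have many large prime factors -/
theorem few_one (k : ℕ) : ∃ R : ℕ, ∀ x t : ℕ, ∀ i0 : Fin (k + 1),
    (((Fintype.piFinset (fun _ : Fin (k + 1) => Icc 2 x)).filter (fun a =>
      (∀ i, R ≤ om (2 ^ t) (a (i0.succAbove i))) ∧
        ¬ IsGenericRow ⊥ (fun i => Real.log (a i)))).card : ℝ) ≤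
      2 ^ k * ee R x t * x ^ (k + 1) := by
  obtain ⟨R, hR⟩ := few_S k 1
  refine ⟨R, fun x t i0 => ?_⟩
  set T := (Fintype.piFinset (fun _ : Fin (k + 1) => Icc 2 x)).filter (fun a =>
      (∀ i, R ≤ om (2 ^ t) (a (i0.succAbove i))) ∧
        ¬ IsGenericRow ⊥ (fun i => Real.log (a i))) with hT
  have hE := ee_pos R x t
  have h1 : T.card = ∑ n ∈ Icc 2 x, (T.filter (fun a => a i0 = n)).card := by
    apply Finset.card_eq_sum_card_fiberwise
    intro a ha
    have ha' := (Finset.mem_filter.1 ha).1
    exact (Fintype.mem_piFinset.1 ha') i0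
  have h2 : ∀ n ∈ Icc 2 x, ((T.filter (fun a => a i0 = n)).card : ℝ) ≤ 2 ^ k * ee R x t * x ^ k := by
    intro n hn
    have hn2 := (Finset.mem_Icc.1 hn).1
    have hinj : Set.InjOn (fun a : Fin (k + 1) → ℕ => fun i : Fin k => a (i0.succAbove i))
        (T.filter (fun a => a i0 = n)) := by
      intro a ha b hb hab
      have ha' := (Finset.mem_filter.1 (Finset.mem_coe.1 ha)).2
      have hb' := (Finset.mem_filter.1 (Finset.mem_coe.1 hb)).2
      funext i
      rcases Fin.eq_self_or_eq_succAbove i0 i with rfl | ⟨j, rfl⟩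
      · rw [ha', hb']
      · exact congrFun hab j
    rw [← Finset.card_image_of_injOn hinj]
    refine hR x t (Submodule.span ℚ {Real.log n}) inferInstance (finrank_line hn2).le _ ?_ ?_ ?_
    · intro b hb
      obtain ⟨a, ha, rfl⟩ := Finset.mem_image.1 hb
      have ha' := (Finset.mem_filter.1 (Finset.mem_filter.1 ha).1).1
      rw [Fintype.mem_piFinset] at ha' ⊢
      intro i
      have := Finset.mem_Icc.1 (ha' (i0.succAbove i))
      exact Finset.mem_Icc.2 ⟨by omega, this.2⟩
    · intro b hb
      obtain ⟨a, ha, rfl⟩ := Finset.mem_image.1 hb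
      exact (Finset.mem_filter.1 (Finset.mem_filter.1 ha).1).2.1
    · intro b hb
      obtain ⟨a, ha, rfl⟩ := Finset.mem_image.1 hb
      have ha0 := (Finset.mem_filter.1 ha).2
      intro hg
      refine (Finset.mem_filter.1 (Finset.mem_filter.1 ha).1).2.2 (generic_cons a i0 ?_ ?_)
      · rw [ha0]; exact hn2
      · rw [ha0]; exact hg
  rw [h1]
  push_cast
  refine (Finset.sum_le_sum h2).trans ?_
  rw [Finset.sum_const, nsmul_eq_mul, Nat.card_Icc]
  have h3 : ((x + 1 - 2 : ℕ) : ℝ) ≤ x := by exact_mod_cast (by omega : x + 1 - 2 ≤ x)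
  calc ((x + 1 - 2 : ℕ) : ℝ) * (2 ^ k * ee R x t * x ^ k) ≤ x * (2 ^ k * ee R x t * x ^ k) := by
        gcongr
    _ = 2 ^ k * ee R x t * x ^ (k + 1) := by ring

/-- two coordinates in a small set -/
theorem count_two {k : ℕ} (x : ℕ) (U : Finset ℕ) (i j : Fin k) (hij : i ≠ j) (u : ℝ)
    (hU : (U.card : ℝ) ≤ u * x) (hUx : U ⊆ Icc 2 x) :
    (((Fintype.piFinset (fun _ : Fin k => Icc 2 x)).filter (fun a => a i ∈ U ∧ a j ∈ U)).card : ℝ) ≤
      u ^ 2 * x ^ k := by
  classical
  have h1 : (Fintype.piFinset (fun _ : Fin k => Icc 2 x)).filter (fun a => a i ∈ U ∧ a j ∈ U) ⊆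
      Fintype.piFinset (fun l : Fin k => if l = i ∨ l = j then U else Icc 1 x) := by
    intro a ha
    rw [Finset.mem_filter, Fintype.mem_piFinset] at ha
    rw [Fintype.mem_piFinset]
    intro l
    split_ifs with hl
    · rcases hl with rfl | rfl
      · exact ha.2.1
      · exact ha.2.2
    · have := Finset.mem_Icc.1 (ha.1 l)
      exact Finset.mem_Icc.2 ⟨by omega, this.2⟩
  have h2 := Finset.card_le_card h1
  rw [Fintype.card_piFinset] at h2
  have h3 : ∏ l : Fin k, (if l = i ∨ l = j then U else Icc 1 x).card =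
      ∏ l : Fin k, (if l = i ∨ l = j then U.card else x) := by
    refine Finset.prod_congr rfl fun l _ => ?_
    split_ifs
    · rfl
    · rw [Nat.card_Icc, Nat.add_sub_cancel]
  rw [h3] at h2
  have h4 : ((∏ l : Fin k, (if l = i ∨ l = j then U.card else x) : ℕ) : ℝ) ≤ u ^ 2 * x ^ k := by
    push_cast
    have hx0 : (0 : ℝ) ≤ x := Nat.cast_nonneg x
    calc (∏ l : Fin k, (if l = i ∨ l = j then (U.card : ℝ) else x))
        ≤ ∏ l : Fin k, ((if l = i ∨ l = j then u else 1) * x) := by
          refine Finset.prod_le_prod (fun l _ => ?_) (fun l _ => ?_)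
          · split_ifs
            · exact Nat.cast_nonneg _
            · exact hx0
          · split_ifs
            · exact hU
            · rw [one_mul]
      _ = u ^ 2 * x ^ k := by
          rw [Finset.prod_mul_distrib, Finset.prod_const, Finset.card_univ, Fintype.card_fin]
          congr 1
          have h5 : ∀ l : Fin k, (if l = i ∨ l = j then u else 1) =
              (if l = i then u else 1) * (if l = j then u else 1) := by
            intro l
            by_cases hli : l = i
            · rw [if_pos (Or.inl hli), if_pos hli, if_neg (fun h => hij (hli.symm.trans h)), mul_one]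
            · by_cases hlj : l = j
              · rw [if_pos (Or.inr hlj), if_neg hli, if_pos hlj, one_mul]
              · rw [if_neg (fun h => h.elim hli hlj), if_neg hli, if_neg hlj, one_mul]
          simp_rw [h5]
          rw [Finset.prod_mul_distrib, Finset.prod_ite_eq', Finset.prod_ite_eq']
          simp
          ring
  exact (by exact_mod_cast h2 : (((Fintype.piFinset (fun _ : Fin k => Icc 2 x)).filter
    (fun a => a i ∈ U ∧ a j ∈ U)).card : ℝ) ≤ ((∏ l : Fin k,
      (if l = i ∨ l = j then U.card else x) : ℕ) : ℝ)).trans h4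

end Pool.Agent.V8H74.TP
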